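import Pool.Agent.Helper81.Tok3.Goals
import Pool.Agent.Helper28.Sus.Macro

/-!
# Broadcast machines: the simulation theorem as a structure

The file `Bridge.lean` contains an element `theSim` of this structure.
-/

namespace Pool.Agent.Helper81.Tok3

open Pool.Agent.Helper65.LinSpace Pool.Agent.Helper28.Ram

namespace Mach

variable (m : Mach)

theorem slt_eq (M : ℕ → ℕ) (q : ℕ) :
    m.slt q (M (m.A q)) = Pool.Agent.Helper28.Sus.silg m.A m.N m.Q M q := by
  unfold slt Pool.Agent.Helper28.Sus.silg ifz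
  rfl

theorem run_eq (M : ℕ → ℕ) (n q : ℕ) :
    m.run M n q = iter (fun _ u => Pool.Agent.Helper28.Sus.silg m.A m.N m.Q M u) n q := by
  unfold run
  induction n with
  | zero => rfl
  | succ n ih =>
    rw [Function.iterate_succ_apply', ih]
    show m.slt _ _ = _
    rw [slt_eq]
    rfl

/-- The configurations are those of the macro run of `Helper28.Sus.Macro`. -/
theorem conf_eq (T : ℕ) :
    m.conf T = Pool.Agent.Helper28.Sus.mgf m.A m.N m.Q m.W m.h m.q0 m.M0 T := by
  induction T with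
  | zero => rfl
  | succ T ih =>
    show (m.N (m.run (m.conf T).2 (2 ^ m.h) (m.conf T).1)
      ((m.conf T).2 (m.A (m.run (m.conf T).2 (2 ^ m.h) (m.conf T).1))),
      fun x => m.W x (m.N (m.run (m.conf T).2 (2 ^ m.h) (m.conf T).1)
        ((m.conf T).2 (m.A (m.run (m.conf T).2 (2 ^ m.h) (m.conf T).1)))) ((m.conf T).2 x)) = _
    rw [run_eq, ih]
    rfl

end Mach

/-- The simulation theorem for macro runs of broadcast machines. -/
structure Sim where
  sim : ℕ → Mach → ℕ
  ls : ∀ {α : Type} [Ctx α] {m : α → Mach} {x : α → ℕ}, LS x →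
    LSM m (fun z => CH (x z)) → (∀ z, Par (Nat.log 2 (x z)) (m z)) →
    LS (fun z => sim (Nat.log 2 (x z)) (m z))
  eq : ∀ (m : Mach) (n : ℕ), m.Ok → Par n m →
    sim n m = (Pool.Agent.Helper28.Sus.mgf m.A m.N m.Q m.W m.h m.q0 m.M0
      (gH n m.h * (gH n m.h * (gH n m.h / m.σ)))).1
  nv : ∀ (m : Mach) (x : ℕ), m.Ok → Par (Nat.log 2 x) m → 2 ^ m.nv m.G ≤ CH x
  sv : ∀ (m : Mach) (x : ℕ), m.Ok → Par (Nat.log 2 x) m → m.sv ≤ CH x

end Pool.Agent.Helper81.Tok3
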