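import Pool.Agent.Helper81.Tok3.Goals

/-!
# Packet NLEV (token machines with silent steps): the evaluation of a node
-/

namespace Pool.Agent.Helper81.Tok3H86

open Pool.Agent.Helper65.LinSpace Pool.Agent.Helper78.Mpc Finset
open Pool.Agent.Helper81.Tok3 Pool.Agent.Helper81.Tok3.Mach
open Pool.Agent.Helper28.Ram.Mach (sgz)

set_option linter.unusedSectionVars false

section

variable (m : Mach) {p : ℕ} [Fact p.Prime]

lemma vars_congr (i : ℕ) (X X' D : ℕ → ZMod p) (hX : ∀ j < i * m.wn, X j = X' j) :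
    m.vars p i X D = m.vars p i X' D := by
  funext j
  unfold Mach.vars
  by_cases h : j < i * m.wn
  · rw [if_pos h, if_pos h, hX j h]
  · rw [if_neg h, if_neg h]

lemma F_congr (k i y r : ℕ) (X X' : ℕ → ZMod p) (hX : ∀ j < i * m.wn, X j = X' j) :
    ∀ u e f, m.F p k i y r X u e f = m.F p k i y r X' u e f
  | 0, e, f => by
    unfold Mach.F
    rw [vars_congr m i X X' _ hX]
  | u + 1, e, f => by
    unfold Mach.F
    refine Finset.sum_congr rfl (fun g _ => ?_)
    rw [F_congr k i y r X X' hX u e g, F_congr k i y r X X' hX u g f]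

lemma P_congr (k i a : ℕ) (hi : i ≤ m.G) (X X' : ℕ → ZMod p) (o : ℕ)
    (hX : ∀ j < i * m.wn, X j = X' j) : m.P p k i a X o = m.P p k i a X' o := by
  unfold Mach.P
  by_cases h : i < m.G
  · rw [if_pos h, if_pos h]
    refine Finset.sum_congr rfl (fun y _ => ?_)
    congr 1
    refine Finset.prod_congr rfl (fun r _ => ?_)
    unfold Mach.fc
    rw [vars_congr m i X X' _ hX, F_congr m k i y r X X' hX]
  · have hiG : i = m.G := by omega
    subst hiG
    rw [if_neg h, if_neg h, vars_congr m m.G X X' _ hX]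

lemma lo_ge (k i : ℕ) (hi : i ≤ m.G) : i * m.wn ≤ m.lo k i := by
  unfold Mach.lo Mach.cl
  by_cases h : i < m.G
  · rw [if_pos h]
  · have hiG : i = m.G := by omega
    subst hiG
    rw [if_neg h]
    omega

lemma lo_lt (k i : ℕ) (hi : i < m.G) : m.lo k i = i * m.wn := by
  unfold Mach.lo
  rw [if_pos hi]

lemma ln_lt (i : ℕ) (hi : i < m.G) : m.ln i = m.wn := by
  unfold Mach.ln
  rw [if_pos hi]

/-- the effect of a call of the level below, on the registers. -/
def callR (k h1 a : ℕ) (c i g : ℕ) (R : ℕ → ZMod p) : ℕ → ZMod p :=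
  if c = 2 ∧ i ≤ m.G then addR (m.lo k i) (m.ln i) (fun o => -(sgz p g * m.P p k i a R o)) R
  else if c = 1 ∧ i < h1 then addR (m.lo k i) (m.ln i) (fun o => sgz p g * m.V p k i a o) R
  else R

/-- the other components are the same. -/
def Same (l : ℕ) (s t : St p) : Prop :=
  s.qa = t.qa ∧ s.ac = t.ac ∧ (s.au = t.au ∧ s.sa = t.sa ∧ s.sl = t.sl) ∧
    ∀ k, l + 1 ≤ k → s.md k = t.md k ∧ s.nd k = t.nd k ∧ s.sg k = t.sg k

lemma Same.refl (l : ℕ) (s : St p) : Same l s s :=
  ⟨rfl, rfl, ⟨rfl, rfl, rfl⟩, fun _ _ => ⟨rfl, rfl, rfl⟩⟩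

lemma Same.trans {l : ℕ} {s t u : St p} (h : Same l s t) (h' : Same l t u) : Same l s u :=
  ⟨h.1.trans h'.1, h.2.1.trans h'.2.1, ⟨h.2.2.1.1.trans h'.2.2.1.1,
    h.2.2.1.2.1.trans h'.2.2.1.2.1, h.2.2.1.2.2.trans h'.2.2.1.2.2⟩, fun k hk =>
    ⟨(h.2.2.2 k hk).1.trans (h'.2.2.2 k hk).1, (h.2.2.2 k hk).2.1.trans (h'.2.2.2 k hk).2.1,
      (h.2.2.2 k hk).2.2.trans (h'.2.2.2 k hk).2.2⟩⟩

lemma same_call (l : ℕ) (s : St p) (c i g : ℕ) : Same l s (s.call l c i g) := by
  refine ⟨rfl, rfl, ⟨rfl, rfl, rfl⟩, fun k hk => ?_⟩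
  simp only [St.call]
  rw [Function.update_of_ne (by omega), Function.update_of_ne (by omega),
    Function.update_of_ne (by omega)]
  exact ⟨rfl, rfl, rfl⟩

lemma same_R (l : ℕ) (s : St p) (R : ℕ → ZMod p) : Same l s { s with R := R } :=
  ⟨rfl, rfl, ⟨rfl, rfl, rfl⟩, fun _ _ => ⟨rfl, rfl, rfl⟩⟩

lemma ideal_call (l : ℕ) (s : St p) (c i g : ℕ) :
    Same (l + 1) s (m.ideal (l + 1) (s.call (l + 1) c i g)) ∧
      (m.ideal (l + 1) (s.call (l + 1) c i g)).R =
        callR m (l / (m.G + 2)) (l % (m.G + 2)) (s.qa (l / (m.G + 2) + 1)) c i g s.R := by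
  have h1 : (s.call (l + 1) c i g).md (l + 1) = c := by simp [St.call]
  have h2 : (s.call (l + 1) c i g).nd (l + 1) = i := by simp [St.call]
  have h3 : (s.call (l + 1) c i g).sg (l + 1) = g := by simp [St.call]
  have h4 : (s.call (l + 1) c i g).qa = s.qa := rfl
  have h5 : (s.call (l + 1) c i g).R = s.R := rfl
  simp only [Mach.ideal, h1, h2, h3, h4, h5]
  unfold callR
  split_ifs
  · exact ⟨(same_call (l + 1) s c i g).trans (same_R _ _ _), rfl⟩
  · exact ⟨(same_call (l + 1) s c i g).trans (same_R _ _ _), rfl⟩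
  · exact ⟨same_call (l + 1) s c i g, rfl⟩

/-- the effect of the operation `j` on the registers in the mode `1`. -/
def stepR (k i g a j : ℕ) (R : ℕ → ZMod p) : ℕ → ZMod p :=
  if j % (2 * m.G + 3) = 0 then scaR 0 (i * m.wn) ((j / (2 * m.G + 3) + 1 : ℕ) : ZMod p) R
  else if j % (2 * m.G + 3) ≤ m.G then
    if j % (2 * m.G + 3) - 1 < i then
      addR (m.lo k (j % (2 * m.G + 3) - 1)) (m.ln (j % (2 * m.G + 3) - 1))
        (fun o => m.V p k (j % (2 * m.G + 3) - 1) a o) R
    else R
  else if j % (2 * m.G + 3) = m.G + 1 then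
    addR (m.lo k i) (m.ln i) (fun o => -(sgz p g * m.P p k i a R o)) R
  else if j % (2 * m.G + 3) ≤ 2 * m.G + 1 then
    if j % (2 * m.G + 3) - (m.G + 2) < i then
      addR (m.lo k (j % (2 * m.G + 3) - (m.G + 2))) (m.ln (j % (2 * m.G + 3) - (m.G + 2)))
        (fun o => -m.V p k (j % (2 * m.G + 3) - (m.G + 2)) a o) R
    else R
  else scaR 0 (i * m.wn) ((j / (2 * m.G + 3) + 1 : ℕ) : ZMod p)⁻¹ R

lemma sgz_zero : sgz p 0 = 1 := by simp [sgz]

lemma sgz_one : sgz p 1 = -1 := by simp [sgz]

lemma callR_zero (k h1 a : ℕ) (R : ℕ → ZMod p) : callR m k h1 a 0 0 0 R = R := by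
  unfold callR
  rw [if_neg (by omega), if_neg (by omega)]

lemma step_one (l : ℕ) (h0 : (l + 1) % (m.G + 2) ≠ 0) (s : St p) (hm : s.md (l + 2) = 1)
    (hn : s.nd (l + 2) < (l + 1) % (m.G + 2)) (j : ℕ) :
    Same (l + 1) s (m.ideal (l + 1) (m.op (l + 1) j s)) ∧
      (m.ideal (l + 1) (m.op (l + 1) j s)).R =
        stepR m ((l + 1) / (m.G + 2)) (s.nd (l + 2)) (s.sg (l + 2))
          (s.qa ((l + 1) / (m.G + 2) + 1)) j s.R := by
  have hk : l / (m.G + 2) = (l + 1) / (m.G + 2) := by
    rw [Nat.succ_div, if_neg (by rw [Nat.dvd_iff_mod_eq_zero]; exact h0)]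
    rfl
  have hh : l % (m.G + 2) + 1 = (l + 1) % (m.G + 2) := by
    have e1 := Nat.div_add_mod l (m.G + 2)
    have e2 := Nat.div_add_mod (l + 1) (m.G + 2)
    rw [hk] at e1
    omega
  have hG : (l + 1) % (m.G + 2) < m.G + 2 := Nat.mod_lt _ (by omega)
  unfold Mach.op stepR
  rw [if_neg h0]
  unfold Mach.opN
  rw [if_pos ⟨hm, hn⟩]
  set u := j % (2 * m.G + 3) with hu
  by_cases c0 : u = 0
  · rw [if_pos c0, if_pos c0]
    obtain ⟨q1, q2⟩ := ideal_call m l
      ({ s with R := (scaR 0 (s.nd (l + 2) * m.wn)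
          ((j / (2 * m.G + 3) + 1 : ℕ) : ZMod p) s.R) } : St p) 0 0 0
    refine ⟨(same_R _ s _).trans q1, ?_⟩
    rw [q2, callR_zero]
  · rw [if_neg c0, if_neg c0]
    by_cases c1 : u ≤ m.G
    · rw [if_pos c1, if_pos c1]
      by_cases c2 : u - 1 < s.nd (l + 2)
      · rw [if_pos c2, if_pos c2]
        obtain ⟨q1, q2⟩ := ideal_call m l s 1 (u - 1) 0
        refine ⟨q1, ?_⟩
        rw [q2, hk]
        unfold callR
        rw [if_neg (by omega), if_pos (by omega), sgz_zero]
        simp only [one_mul]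
      · rw [if_neg c2, if_neg c2]
        obtain ⟨q1, q2⟩ := ideal_call m l s 0 0 0
        exact ⟨q1, by rw [q2, callR_zero]⟩
    · rw [if_neg c1, if_neg c1]
      by_cases c3 : u = m.G + 1
      · rw [if_pos c3, if_pos c3]
        obtain ⟨q1, q2⟩ := ideal_call m l s 2 (s.nd (l + 2)) (s.sg (l + 2))
        refine ⟨q1, ?_⟩
        rw [q2, hk]
        unfold callR
        rw [if_pos ⟨rfl, by omega⟩]
      · rw [if_neg c3, if_neg c3]
        by_cases c4 : u ≤ 2 * m.G + 1
        · rw [if_pos c4, if_pos c4]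
          by_cases c5 : u - (m.G + 2) < s.nd (l + 2)
          · rw [if_pos c5, if_pos c5]
            obtain ⟨q1, q2⟩ := ideal_call m l s 1 (u - (m.G + 2)) 1
            refine ⟨q1, ?_⟩
            rw [q2, hk]
            unfold callR
            rw [if_neg (by omega), if_pos (by omega), sgz_one]
            simp only [neg_mul, one_mul]
          · rw [if_neg c5, if_neg c5]
            obtain ⟨q1, q2⟩ := ideal_call m l s 0 0 0
            exact ⟨q1, by rw [q2, callR_zero]⟩
        · rw [if_neg c4, if_neg c4]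
          obtain ⟨q1, q2⟩ := ideal_call m l
            ({ s with R := (scaR 0 (s.nd (l + 2) * m.wn)
                ((j / (2 * m.G + 3) + 1 : ℕ) : ZMod p)⁻¹ s.R) } : St p) 0 0 0
          refine ⟨(same_R _ s _).trans q1, ?_⟩
          rw [q2, callR_zero]

/-- add `c` times the true values to the intervals `< n`, `< i`. -/
def addV (k i a : ℕ) (c : ZMod p) (n : ℕ) (R : ℕ → ZMod p) : ℕ → ZMod p :=
  fun j => if j < i * m.wn ∧ j < n * m.wn then R j + c * m.V p k (j / m.wn) a (j % m.wn) else R j

lemma iter_addV (k i a : ℕ) (hi : i ≤ m.G) (c : ZMod p) (f : ℕ → (ℕ → ZMod p) → (ℕ → ZMod p)) :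
    ∀ n, (∀ u < n, ∀ R, f u R = if u < i then
        addR (m.lo k u) (m.ln u) (fun o => c * m.V p k u a o) R else R) →
      ∀ R, iter f n R = addV m k i a c n R
  | 0, _, R => by
    show R = _
    funext j
    unfold addV
    rw [if_neg (by omega)]
  | n + 1, hf, R => by
    show f n (iter f n R) = _
    rw [iter_addV k i a hi c f n (fun u hu => hf u (by omega)) R, hf n (by omega)]
    have hs : (n + 1) * m.wn = n * m.wn + m.wn := by ring
    by_cases h : n < i
    · rw [if_pos h, lo_lt m k n (by omega), ln_lt m n (by omega)]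
      have hle : (n + 1) * m.wn ≤ i * m.wn := Nat.mul_le_mul_right _ (by omega)
      funext j
      unfold addV addR
      by_cases h1 : n * m.wn ≤ j ∧ j < n * m.wn + m.wn
      · beta_reduce
        rw [if_pos h1, if_neg (show ¬ (j < i * m.wn ∧ j < n * m.wn) by omega),
          if_pos (show j < i * m.wn ∧ j < (n + 1) * m.wn by omega)]
        have hd : j / m.wn = n := by
          apply Nat.div_eq_of_lt_le
          · exact h1.1
          · rw [hs]; exact h1.2
        have hmd : j % m.wn = j - n * m.wn := by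
          have := Nat.div_add_mod j m.wn
          rw [hd] at this
          rw [Nat.mul_comm] at this
          omega
        rw [hd, hmd]
      · beta_reduce
        rw [if_neg h1]
        by_cases h2 : j < n * m.wn
        · rw [if_pos (show j < i * m.wn ∧ j < n * m.wn by omega),
            if_pos (show j < i * m.wn ∧ j < (n + 1) * m.wn by omega)]
        · rw [if_neg (show ¬ (j < i * m.wn ∧ j < n * m.wn) by omega),
            if_neg (show ¬ (j < i * m.wn ∧ j < (n + 1) * m.wn) by omega)]
    · rw [if_neg h]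
      have hle : i * m.wn ≤ n * m.wn := Nat.mul_le_mul_right _ (by omega)
      funext j
      unfold addV
      by_cases h2 : j < i * m.wn ∧ j < n * m.wn
      · rw [if_pos h2, if_pos (show j < i * m.wn ∧ j < (n + 1) * m.wn by omega)]
      · rw [if_neg h2, if_neg (show ¬ (j < i * m.wn ∧ j < (n + 1) * m.wn) by omega)]

/-- one round. -/
lemma round_eq (k i g a : ℕ) (hi : i ≤ m.G) (w : ℕ) (hw : ((w + 1 : ℕ) : ZMod p) ≠ 0)
    (R : ℕ → ZMod p) :
    iter (fun u => stepR m k i g a (w * (2 * m.G + 3) + u)) (2 * m.G + 3) R =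
      addR (m.lo k i) (m.ln i) (fun o => -(sgz p g * m.P p k i a
        (fun j => ((w + 1 : ℕ) : ZMod p) * R j + m.V p k (j / m.wn) a (j % m.wn)) o)) R := by
  have hmod : ∀ u < 2 * m.G + 3, (w * (2 * m.G + 3) + u) % (2 * m.G + 3) = u := by
    intro u hu
    rw [Nat.mul_comm, Nat.mul_add_mod, Nat.mod_eq_of_lt hu]
  have hdiv : ∀ u < 2 * m.G + 3, (w * (2 * m.G + 3) + u) / (2 * m.G + 3) = w := by
    intro u hu
    rw [Nat.mul_comm, Nat.mul_add_div (by omega), Nat.div_eq_of_lt hu]
    rfl
  have e : 2 * m.G + 3 = 1 + m.G + 1 + m.G + 1 := by ring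
  conv_lhs => rw [show iter (fun u => stepR m k i g a (w * (2 * m.G + 3) + u)) (2 * m.G + 3) R =
    iter (fun u => stepR m k i g a (w * (2 * m.G + 3) + u)) (1 + m.G + 1 + m.G + 1) R by rw [← e]]
  rw [iter_add, iter_add, iter_add, iter_add]
  -- the first operation
  have s1 : iter (fun u => stepR m k i g a (w * (2 * m.G + 3) + u)) 1 R =
      scaR 0 (i * m.wn) ((w + 1 : ℕ) : ZMod p) R := by
    show stepR m k i g a (w * (2 * m.G + 3) + 0) R = _
    unfold stepR
    rw [hmod 0 (by omega), hdiv 0 (by omega), if_pos rfl]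
  rw [s1]
  have s2 : ∀ R : ℕ → ZMod p,
      iter (fun u => stepR m k i g a (w * (2 * m.G + 3) + (1 + u))) m.G R =
      addV m k i a 1 m.G R := by
    intro R
    apply iter_addV m k i a hi
    intro u hu R
    unfold stepR
    rw [hmod (1 + u) (by omega), if_neg (by omega), if_pos (by omega)]
    rw [show 1 + u - 1 = u by omega]
    simp only [one_mul]
  rw [s2]
  have s3 : ∀ R : ℕ → ZMod p,
      iter (fun u => stepR m k i g a (w * (2 * m.G + 3) + (1 + m.G + u))) 1 R =
      addR (m.lo k i) (m.ln i) (fun o => -(sgz p g * m.P p k i a R o)) R := by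
    intro R
    show stepR m k i g a (w * (2 * m.G + 3) + (1 + m.G + 0)) R = _
    unfold stepR
    rw [hmod (1 + m.G + 0) (by omega), if_neg (by omega), if_neg (by omega), if_pos (by omega)]
  rw [s3]
  have s4 : ∀ R : ℕ → ZMod p,
      iter (fun u => stepR m k i g a (w * (2 * m.G + 3) + (1 + m.G + 1 + u))) m.G R =
      addV m k i a (-1) m.G R := by
    intro R
    apply iter_addV m k i a hi
    intro u hu R
    unfold stepR
    rw [hmod (1 + m.G + 1 + u) (by omega), if_neg (by omega), if_neg (by omega), if_neg (by omega),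
      if_pos (by omega)]
    rw [show 1 + m.G + 1 + u - (m.G + 2) = u by omega]
    simp only [neg_mul, one_mul]
  rw [s4]
  have s5 : ∀ R : ℕ → ZMod p,
      iter (fun u => stepR m k i g a (w * (2 * m.G + 3) + (1 + m.G + 1 + m.G + u))) 1 R =
      scaR 0 (i * m.wn) ((w + 1 : ℕ) : ZMod p)⁻¹ R := by
    intro R
    show stepR m k i g a (w * (2 * m.G + 3) + (1 + m.G + 1 + m.G + 0)) R = _
    unfold stepR
    rw [hmod (1 + m.G + 1 + m.G + 0) (by omega), hdiv (1 + m.G + 1 + m.G + 0) (by omega),
      if_neg (by omega), if_neg (by omega), if_neg (by omega), if_neg (by omega)]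
  rw [s5]
  have hiw : i * m.wn ≤ m.G * m.wn := Nat.mul_le_mul_right _ hi
  have hlo := lo_ge m k i hi
  funext j
  have hP : ∀ o, m.P p k i a (addV m k i a 1 m.G (scaR 0 (i * m.wn) ((w + 1 : ℕ) : ZMod p) R)) o =
      m.P p k i a
        (fun j => ((w + 1 : ℕ) : ZMod p) * R j + m.V p k (j / m.wn) a (j % m.wn)) o := by
    intro o
    apply P_congr m k i a hi
    intro j hj
    unfold addV scaR
    rw [if_pos (by omega), if_pos (by omega), one_mul]
  by_cases h1 : j < i * m.wn
  · simp only [scaR, addV, addR]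
    rw [if_pos (show 0 ≤ j ∧ j < 0 + i * m.wn by omega),
      if_pos (show j < i * m.wn ∧ j < m.G * m.wn by omega),
      if_neg (show ¬ (m.lo k i ≤ j ∧ j < m.lo k i + m.ln i) by omega)]
    rw [if_pos (show j < i * m.wn ∧ j < m.G * m.wn by omega),
      if_pos (show 0 ≤ j ∧ j < 0 + i * m.wn by omega),
      if_neg (show ¬ (m.lo k i ≤ j ∧ j < m.lo k i + m.ln i) by omega)]
    field_simp
    ring
  · simp only [scaR, addV, addR]
    rw [if_neg (show ¬ (0 ≤ j ∧ j < 0 + i * m.wn) by omega),
      if_neg (show ¬ (j < i * m.wn ∧ j < m.G * m.wn) by omega)]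
    by_cases h2 : m.lo k i ≤ j ∧ j < m.lo k i + m.ln i
    · rw [if_pos h2, if_pos h2,
        if_neg (show ¬ (j < i * m.wn ∧ j < m.G * m.wn) by omega),
        if_neg (show ¬ (0 ≤ j ∧ j < 0 + i * m.wn) by omega)]
      exact congrArg (fun z => R j + -(sgz p g * z)) (hP (j - m.lo k i))
    · rw [if_neg h2, if_neg h2,
        if_neg (show ¬ (j < i * m.wn ∧ j < m.G * m.wn) by omega),
        if_neg (show ¬ (0 ≤ j ∧ j < 0 + i * m.wn) by omega)]

/-- all rounds. -/
lemma rounds (k i g a : ℕ) (hi : i ≤ m.G) (R : ℕ → ZMod p) :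
    ∀ n, iter (fun w R => addR (m.lo k i) (m.ln i) (fun o => -(sgz p g * m.P p k i a
        (fun j => ((w + 1 : ℕ) : ZMod p) * R j + m.V p k (j / m.wn) a (j % m.wn)) o)) R) n R =
      addR (m.lo k i) (m.ln i) (fun o => -(sgz p g * ∑ w ∈ range n, m.P p k i a
        (fun j => ((w + 1 : ℕ) : ZMod p) * R j + m.V p k (j / m.wn) a (j % m.wn)) o)) R
  | 0 => by
    show R = _
    funext j
    simp [addR]
  | n + 1 => by
    have hstep : ∀ F : ℕ → (ℕ → ZMod p) → (ℕ → ZMod p), iter F (n + 1) R = F n (iter F n R) :=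
      fun _ => rfl
    rw [hstep, rounds k i g a hi R n]
    have hlo := lo_ge m k i hi
    funext j
    simp only [addR]
    by_cases h : m.lo k i ≤ j ∧ j < m.lo k i + m.ln i
    · rw [if_pos h, if_pos h, if_pos h, Finset.sum_range_succ]
      have hP : m.P p k i a (fun j => ((n + 1 : ℕ) : ZMod p) *
          (if m.lo k i ≤ j ∧ j < m.lo k i + m.ln i then
          R j + -(sgz p g * ∑ w ∈ range n, m.P p k i a
            (fun j => ((w + 1 : ℕ) : ZMod p) * R j + m.V p k (j / m.wn) a (j % m.wn))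
              (j - m.lo k i)) else R j) +
            m.V p k (j / m.wn) a (j % m.wn)) (j - m.lo k i) = m.P p k i a
            (fun j => ((n + 1 : ℕ) : ZMod p) * R j + m.V p k (j / m.wn) a (j % m.wn))
              (j - m.lo k i) := by
        apply P_congr m k i a hi
        intro j' hj'
        rw [if_neg (by omega)]
      rw [hP]
      ring
    · rw [if_neg h, if_neg h, if_neg h]

end

theorem NLEV (hLINE : LINE_stmt) (hTRUTH : TRUTH_stmt) : NLEV_stmt := by
  intro m p _ hok hp l hl s
  obtain ⟨l, rfl⟩ : ∃ l', l = l' + 1 := ⟨l - 1, by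
    have : l ≠ 0 := by rintro rfl; simp at hl
    omega⟩
  have hcnt : m.cnt p (l + 1) = (p - 1) * (2 * m.G + 3) := by
    unfold Mach.cnt ifz
    rw [if_neg hl]
  have hp2 : 0 < p - 1 := by omega
  have hhG : (l + 1) % (m.G + 2) < m.G + 2 := Nat.mod_lt _ (by omega)
  have agree_of : ∀ t : St p, Same (l + 1) s t → t.R = (m.ideal (l + 2) s).R →
      m.Agree (l + 1 + 1) t (m.ideal (l + 1 + 1) s) := by
    intro t ht hR
    have hid : Same (l + 1) s (m.ideal (l + 2) s) := by
      simp only [Mach.ideal]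
      split_ifs
      · exact same_R _ _ _
      · exact same_R _ _ _
      · exact Same.refl _ _
    refine ⟨hR, ?_, ?_⟩
    · intro k hk
      have a1 := ht.2.2.2 k hk
      have a2 := hid.2.2.2 k hk
      exact ⟨a1.1.symm.trans a2.1, a1.2.1.symm.trans a2.2.1, a1.2.2.symm.trans a2.2.2⟩
    · intro k _
      refine ⟨?_, ?_, ?_, ?_, ?_⟩
      · exact congrFun (ht.1.symm.trans hid.1) k
      · exact congrFun (ht.2.1.symm.trans hid.2.1) k
      · exact congrFun (ht.2.2.1.1.symm.trans hid.2.2.1.1) k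
      · exact congrFun (ht.2.2.1.2.1.symm.trans hid.2.2.1.2.1) k
      · exact congrFun (ht.2.2.1.2.2.symm.trans hid.2.2.1.2.2) k
  by_cases hA : s.md (l + 2) = 2 ∧ s.nd (l + 2) ≤ m.G
  · -- mode 2
    have hk : l / (m.G + 2) = (l + 1) / (m.G + 2) := by
      rw [Nat.succ_div, if_neg (by rw [Nat.dvd_iff_mod_eq_zero]; exact hl)]
      rfl
    have key : ∀ n, 0 < n → Same (l + 1) s (iter (fun j s => m.ideal (l + 1) (m.op (l + 1) j s)) n s) ∧
        (iter (fun j s => m.ideal (l + 1) (m.op (l + 1) j s)) n s).R = (m.ideal (l + 2) s).R := by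
      intro n hn
      induction n with
      | zero => omega
      | succ n ih =>
        show Same (l + 1) s (m.ideal (l + 1) (m.op (l + 1) n (iter _ n s))) ∧
          (m.ideal (l + 1) (m.op (l + 1) n (iter _ n s))).R = _
        rcases Nat.eq_zero_or_pos n with h0 | h0
        · subst h0
          show Same (l + 1) s (m.ideal (l + 1) (m.op (l + 1) 0 s)) ∧
            (m.ideal (l + 1) (m.op (l + 1) 0 s)).R = _
          have e1 : m.op (l + 1) 0 s = s.call (l + 1) 2 (s.nd (l + 2)) (s.sg (l + 2)) := by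
            unfold Mach.op
            rw [if_neg hl]
            unfold Mach.opN
            rw [if_neg (by rintro ⟨h, -⟩; rw [hA.1] at h; omega), if_pos ⟨hA.1, hA.2, rfl⟩]
          rw [e1]
          obtain ⟨q1, q2⟩ := ideal_call m l s 2 (s.nd (l + 2)) (s.sg (l + 2))
          refine ⟨q1, ?_⟩
          rw [q2]
          unfold callR
          rw [if_pos ⟨rfl, hA.2⟩]
          simp only [Mach.ideal]
          rw [if_pos hA, hk]
        · obtain ⟨i1, i2⟩ := ih h0
          set t := iter (fun j s => m.ideal (l + 1) (m.op (l + 1) j s)) n s with ht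
          have hmt : t.md (l + 2) = 2 := by rw [← (i1.2.2.2 (l + 2) (by omega)).1]; exact hA.1
          have e1 : m.op (l + 1) n t = t.call (l + 1) 0 0 0 := by
            unfold Mach.op
            rw [if_neg hl]
            unfold Mach.opN
            rw [if_neg (by rintro ⟨h, -⟩; rw [hmt] at h; omega), if_neg (by rintro ⟨-, -, h⟩; omega)]
          rw [e1]
          obtain ⟨q1, q2⟩ := ideal_call m l t 0 0 0
          refine ⟨i1.trans q1, ?_⟩
          rw [q2, callR_zero, i2]
    obtain ⟨k1, k2⟩ := key (m.cnt p (l + 1)) (by rw [hcnt]; positivity)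
    exact agree_of _ k1 k2
  · by_cases hB : s.md (l + 2) = 1 ∧ s.nd (l + 2) < (l + 1) % (m.G + 2)
    · -- mode 1
      set k := (l + 1) / (m.G + 2) with hk
      set i := s.nd (l + 2) with hi
      set g := s.sg (l + 2) with hg
      set a := s.qa (k + 1) with ha
      have key : ∀ n, Same (l + 1) s (iter (fun j s => m.ideal (l + 1) (m.op (l + 1) j s)) n s) ∧
          (iter (fun j s => m.ideal (l + 1) (m.op (l + 1) j s)) n s).R =
            iter (stepR m k i g a) n s.R := by
        intro n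
        induction n with
        | zero => exact ⟨Same.refl _ _, rfl⟩
        | succ n ih =>
          obtain ⟨i1, i2⟩ := ih
          show Same (l + 1) s (m.ideal (l + 1) (m.op (l + 1) n (iter _ n s))) ∧
            (m.ideal (l + 1) (m.op (l + 1) n (iter _ n s))).R =
              stepR m k i g a n (iter (stepR m k i g a) n s.R)
          set t := iter (fun j s => m.ideal (l + 1) (m.op (l + 1) j s)) n s with ht
          have j1 := i1.2.2.2 (l + 2) (by omega)
          have j2 := congrFun i1.1 (k + 1)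
          have := step_one m l hl t (by rw [← j1.1]; exact hB.1) (by rw [← j1.2.1]; exact hB.2) n
          rw [← j1.2.1, ← j1.2.2, ← hk, ← j2, i2] at this
          exact ⟨i1.trans this.1, this.2⟩
      obtain ⟨k1, k2⟩ := key (m.cnt p (l + 1))
      refine agree_of _ k1 ?_
      rw [k2, hcnt, iter_mul]
      have hiG : i ≤ m.G := by omega
      have e1 : iter (fun d => iter (fun u => stepR m k i g a (d * (2 * m.G + 3) + u))
          (2 * m.G + 3)) (p - 1) s.R =
          iter (fun w R => addR (m.lo k i) (m.ln i) (fun o => -(sgz p g * m.P p k i a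
            (fun j => ((w + 1 : ℕ) : ZMod p) * R j + m.V p k (j / m.wn) a (j % m.wn)) o)) R)
              (p - 1) s.R := by
        apply iter_congr
        intro w hw R
        apply round_eq m k i g a hiG w
        intro h0
        rw [ZMod.natCast_eq_zero_iff] at h0
        have := Nat.le_of_dvd (by omega) h0
        omega
      have e3 : (fun o => -(sgz p g * ∑ w ∈ range (p - 1), m.P p k i a
          (fun j => ((w + 1 : ℕ) : ZMod p) * s.R j + m.V p k (j / m.wn) a (j % m.wn)) o)) =
          fun o => sgz p g * m.V p k i a o := by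
        funext o
        rw [hLINE m p hok hp k i a s.R (fun j => m.V p k (j / m.wn) a (j % m.wn)) o hiG]
        have h2 := hTRUTH m p hok k i a o hiG
        rw [h2]
        ring
      rw [e1, rounds m k i g a hiG, e3]
      simp only [Mach.ideal]
      rw [if_neg hA, if_pos hB]
    · -- nothing happens
      have key : ∀ n, Same (l + 1) s (iter (fun j s => m.ideal (l + 1) (m.op (l + 1) j s)) n s) ∧
          (iter (fun j s => m.ideal (l + 1) (m.op (l + 1) j s)) n s).R = s.R := by
        intro n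
        induction n with
        | zero => exact ⟨Same.refl _ _, rfl⟩
        | succ n ih =>
          obtain ⟨i1, i2⟩ := ih
          show Same (l + 1) s (m.ideal (l + 1) (m.op (l + 1) n (iter _ n s))) ∧
            (m.ideal (l + 1) (m.op (l + 1) n (iter _ n s))).R = _
          set t := iter (fun j s => m.ideal (l + 1) (m.op (l + 1) j s)) n s with ht
          have j1 := i1.2.2.2 (l + 2) (by omega)
          have e1 : m.op (l + 1) n t = t.call (l + 1) 0 0 0 := by
            unfold Mach.op
            rw [if_neg hl]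
            unfold Mach.opN
            rw [if_neg (by rw [← j1.1, ← j1.2.1]; exact hB),
              if_neg (by rw [← j1.1, ← j1.2.1]; exact fun h => hA ⟨h.1, h.2.1⟩)]
          rw [e1]
          obtain ⟨q1, q2⟩ := ideal_call m l t 0 0 0
          refine ⟨i1.trans q1, ?_⟩
          rw [q2, callR_zero, i2]
      obtain ⟨k1, k2⟩ := key (m.cnt p (l + 1))
      refine agree_of _ k1 ?_
      rw [k2]
      simp only [Mach.ideal]
      rw [if_neg hA, if_neg hB]


end Pool.Agent.Helper81.Tok3H86
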