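import Pool.Agent.Helper81.Tok3.Goals

/-!
# Packet PARA (token machines with free silent steps): sizes of the arrays and degree
-/

namespace Pool.Agent.Helper81.Tok3H56

open Pool.Agent.Helper65.LinSpace Pool.Agent.Helper28.Ram Finset
open Pool.Agent.Helper81.Tok3

theorem gH_pos (n h : ℕ) : 1 ≤ gH n h := Nat.le_add_left _ _

theorem ll_pos (n : ℕ) : 1 ≤ ll n := by
  unfold ll
  omega

theorem gH_sq (n h : ℕ) : (gH n h - 1) * (gH n h - 1) ≤ n := by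
  unfold gH
  rw [Nat.add_sub_cancel]
  exact (Nat.sqrt_le _).trans (Nat.div_le_self _ _)

theorem lt_pH (n h : ℕ) : (n + 2) ^ 4 * 2 ^ h < pH n h :=
  (nextPrime_spec (by positivity)).2.1

theorem poly_le (s : ℕ) : 6 * (s + 1) ^ 3 + 2 * (s + 1) ^ 2 + 1 ≤ (s * s + 2) ^ 4 := by
  rcases Nat.lt_or_ge s 2 with h | h
  · interval_cases s <;> norm_num
  · have h1 : 2 * (s + 1) ≤ s * s + 2 := by nlinarith
    have h2 : (2 * (s + 1)) ^ 4 ≤ (s * s + 2) ^ 4 := Nat.pow_le_pow_left h1 4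
    refine le_trans ?_ h2
    have h3 : (2 * (s + 1)) ^ 4 = 16 * (s + 1) * (s + 1) ^ 3 := by ring
    rw [h3]
    have h4 : 48 * (s + 1) ^ 3 ≤ 16 * (s + 1) * (s + 1) ^ 3 := Nat.mul_le_mul_right _ (by omega)
    have h5 : (s + 1) ^ 2 ≤ (s + 1) ^ 3 := Nat.pow_le_pow_right (by omega) (by norm_num)
    have h6 : 1 ≤ (s + 1) ^ 3 := Nat.one_le_pow _ _ (by omega)
    omega

theorem PARA : PARA_stmt := by
  intro n m hok hpar
  obtain ⟨hσ, hh, hG, hb, ha⟩ := hpar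
  have hg := gH_pos n m.h
  have hgs := gH_sq n m.h
  have hp := lt_pH n m.h
  have h2 : m.σ * m.b ≤ gH n m.h := by
    rw [hb]
    exact Nat.mul_div_le _ _
  have h3 : m.b ≤ gH n m.h := by
    rw [hb]
    exact Nat.div_le_self _ _
  obtain ⟨g, hgg⟩ : ∃ g, gH n m.h = g := ⟨_, rfl⟩
  rw [hgg] at hσ hh hG hb ha hg hgs h2 h3
  rw [hgg]
  have hwn : m.wn ≤ 2 * g := by
    unfold Mach.wn
    calc m.σ * (2 * m.b) = 2 * (m.σ * m.b) := by ring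
      _ ≤ _ := Nat.mul_le_mul_left _ h2
  have hwc : m.wc ≤ g + g * g := by
    unfold Mach.wc
    omega
  have hhg : m.h ≤ g := le_trans (Nat.le_mul_of_pos_left _ (by omega)) hh
  obtain ⟨s, rfl⟩ : ∃ s, g = s + 1 := ⟨g - 1, by omega⟩
  rw [Nat.add_sub_cancel] at hgs
  have hsn : s ≤ n := le_trans (Nat.le_mul_self s) hgs
  have hP1 : 1 ≤ 2 ^ m.h := Nat.one_le_two_pow
  have hbig : 6 * (s + 1) ^ 3 + 2 * (s + 1) ^ 2 + 1 ≤ (n + 2) ^ 4 :=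
    (poly_le s).trans (Nat.pow_le_pow_left (by omega) 4)
  have hpn : (n + 2) ^ 4 < pH n m.h := lt_of_le_of_lt (Nat.le_mul_of_pos_right _ hP1) hp
  have hsmall : n + 2 ≤ (n + 2) ^ 4 := by
    calc n + 2 = (n + 2) ^ 1 := by ring
      _ ≤ (n + 2) ^ 4 := Nat.pow_le_pow_right (by omega) (by norm_num)
  have h16 : 2 ^ 4 ≤ (n + 2) ^ 4 := Nat.pow_le_pow_left (by omega) 4
  refine ⟨⟨?_, ?_, ?_, ?_, ?_, ?_⟩, ?_⟩
  · unfold JH
    rw [hG, hgg]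
    have h4 : (s + 1) * m.wn ≤ (s + 1) * (2 * (s + 1)) := Nat.mul_le_mul_left _ hwn
    nlinarith
  · unfold JH
    rw [hG, hgg]
    nlinarith
  · unfold JH
    rw [hgg]
    calc (s + 1 + 1) * m.σ ≤ (s + 1 + 1) * (8 * (s + 1 + 1)) := Nat.mul_le_mul_left _ (by omega)
      _ = _ := by ring
  · rw [hG]
    omega
  · omega
  · unfold JH
    rw [hgg]
    calc (s + 1 + 1) * (m.h + 1) ≤ (s + 1 + 1) * (8 * (s + 1 + 1)) :=
          Nat.mul_le_mul_left _ (by omega)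
      _ = _ := by ring
  · have h5 : m.nv m.G ≤ 3 * ((s + 1) * (s + 1)) + (s + 1) := by
      unfold Mach.nv
      rw [hG]
      have h4 : (s + 1) * m.wn ≤ (s + 1) * (2 * (s + 1)) := Nat.mul_le_mul_left _ hwn
      nlinarith
    have h6 : m.b * ((2 ^ m.h + 1) * m.nv m.G) ≤
        (s + 1) * ((2 * 2 ^ m.h) * (3 * ((s + 1) * (s + 1)) + (s + 1))) :=
      Nat.mul_le_mul h3 (Nat.mul_le_mul (by omega) h5)
    have h7 : (s + 1) * ((2 * 2 ^ m.h) * (3 * ((s + 1) * (s + 1)) + (s + 1))) =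
        2 ^ m.h * (6 * (s + 1) ^ 3 + 2 * (s + 1) ^ 2) := by ring
    have h8 : 2 ^ m.h * (6 * (s + 1) ^ 3 + 2 * (s + 1) ^ 2) + 1 ≤ (n + 2) ^ 4 * 2 ^ m.h := by
      calc 2 ^ m.h * (6 * (s + 1) ^ 3 + 2 * (s + 1) ^ 2) + 1 ≤
            2 ^ m.h * (6 * (s + 1) ^ 3 + 2 * (s + 1) ^ 2) + 2 ^ m.h := by omega
        _ = 2 ^ m.h * (6 * (s + 1) ^ 3 + 2 * (s + 1) ^ 2 + 1) := by ring
        _ ≤ 2 ^ m.h * (n + 2) ^ 4 := Nat.mul_le_mul_left _ hbig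
        _ = _ := mul_comm _ _
    omega

end Pool.Agent.Helper81.Tok3H56
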