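import Pool.Agent.Helper81.Tok3.FCAST
import Pool.Agent.Helper33.Ram.REL

/-!
# REL: the operations on digits do the same as the operations on states
-/

namespace Pool.Agent.Helper81.Tok3H85

open Pool.Agent.Helper65.LinSpace Finset Pool.Agent.Helper81.Tok3
open Pool.Agent.Helper28.Ram (trc)
open Pool.Agent.Helper28.Ram.Mach (sgz)
open Pool.Agent.Helper33.Ram (ifz_pos eq01_pos eq01_neg lt01_pos lt01_neg
  le01_pos le01_neg)

/-! ### Codes -/

section

variable {p : ℕ} (m : Mach) (s : Mach.St p)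

theorem enc0 (k : ℕ) : m.enc s (9 * k) = (s.R k).val := by
  have h1 : 9 * k % 9 = 0 := by omega
  have h2 : 9 * k / 9 = k := by omega
  unfold Mach.enc
  rw [h1, h2]
  simp

theorem enc1 (k : ℕ) : m.enc s (9 * k + 1) = s.md k := by
  have h1 : (9 * k + 1) % 9 = 1 := by omega
  have h2 : (9 * k + 1) / 9 = k := by omega
  unfold Mach.enc
  rw [h1, h2]
  simp

theorem enc2 (k : ℕ) : m.enc s (9 * k + 2) = s.nd k := by
  have h1 : (9 * k + 2) % 9 = 2 := by omega
  have h2 : (9 * k + 2) / 9 = k := by omega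
  unfold Mach.enc
  rw [h1, h2]
  simp

theorem enc3 (k : ℕ) : m.enc s (9 * k + 3) = s.sg k := by
  have h1 : (9 * k + 3) % 9 = 3 := by omega
  have h2 : (9 * k + 3) / 9 = k := by omega
  unfold Mach.enc
  rw [h1, h2]
  simp

theorem enc4 (k : ℕ) : m.enc s (9 * k + 4) = dig 2 (s.qa (k / m.σ)) (k % m.σ) := by
  have h1 : (9 * k + 4) % 9 = 4 := by omega
  have h2 : (9 * k + 4) / 9 = k := by omega
  unfold Mach.enc
  rw [h1, h2]
  simp

theorem enc5 (k : ℕ) : m.enc s (9 * k + 5) = (s.ac k).val := by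
  have h1 : (9 * k + 5) % 9 = 5 := by omega
  have h2 : (9 * k + 5) / 9 = k := by omega
  unfold Mach.enc
  rw [h1, h2]
  simp

theorem enc6 (k : ℕ) : m.enc s (9 * k + 6) = (s.au k).val := by
  have h1 : (9 * k + 6) % 9 = 6 := by omega
  have h2 : (9 * k + 6) / 9 = k := by omega
  unfold Mach.enc
  rw [h1, h2]
  simp

theorem enc7 (k : ℕ) :
    m.enc s (9 * k + 7) = (s.sa (k / (m.h + 1)) (k % (m.h + 1))).val := by
  have h1 : (9 * k + 7) % 9 = 7 := by omega
  have h2 : (9 * k + 7) / 9 = k := by omega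
  unfold Mach.enc
  rw [h1, h2]
  simp

theorem enc8 (k : ℕ) :
    m.enc s (9 * k + 8) = (s.sl (k / (m.h + 1)) (k % (m.h + 1))).val := by
  have h1 : (9 * k + 8) % 9 = 8 := by omega
  have h2 : (9 * k + 8) / 9 = k := by omega
  unfold Mach.enc
  rw [h1, h2]
  simp

end

/-- The entries of the digits. -/
structure Dat {p : ℕ} (m : Mach) (J K : ℕ) (a : ℕ → ℕ) (s : Mach.St p) : Prop where
  lt : ∀ x < 9 * J, a x < p
  R : ∀ k < J, a (9 * k) = (s.R k).val
  md : ∀ k < J, a (9 * k + 1) = s.md k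
  nd : ∀ k < J, a (9 * k + 2) = s.nd k
  sg : ∀ k < J, a (9 * k + 3) = s.sg k
  qa : ∀ k < J, a (9 * k + 4) = dig 2 (s.qa (k / m.σ)) (k % m.σ)
  ac : ∀ k < J, a (9 * k + 5) = (s.ac k).val
  au : ∀ k < J, a (9 * k + 6) = (s.au k).val
  sa : ∀ k < J, a (9 * k + 7) = (s.sa (k / (m.h + 1)) (k % (m.h + 1))).val
  sl : ∀ k < J, a (9 * k + 8) = (s.sl (k / (m.h + 1)) (k % (m.h + 1))).val
  q2 : ∀ t ≤ K, s.qa t < 2 ^ m.σ

theorem rel_iff {p : ℕ} (m : Mach) (J K : ℕ) (a : ℕ → ℕ) (s : Mach.St p) :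
    m.Rel J K a s ↔ Dat m J K a s := by
  constructor
  · rintro ⟨h1, h2⟩
    refine ⟨fun x hx => (h1 x hx).2, fun k hk => ?_, fun k hk => ?_, fun k hk => ?_, fun k hk => ?_,
      fun k hk => ?_, fun k hk => ?_, fun k hk => ?_, fun k hk => ?_, fun k hk => ?_, h2⟩
    · rw [(h1 (9 * k) (by omega)).1, enc0]
    · rw [(h1 (9 * k + 1) (by omega)).1, enc1]
    · rw [(h1 (9 * k + 2) (by omega)).1, enc2]
    · rw [(h1 (9 * k + 3) (by omega)).1, enc3]
    · rw [(h1 (9 * k + 4) (by omega)).1, enc4]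
    · rw [(h1 (9 * k + 5) (by omega)).1, enc5]
    · rw [(h1 (9 * k + 6) (by omega)).1, enc6]
    · rw [(h1 (9 * k + 7) (by omega)).1, enc7]
    · rw [(h1 (9 * k + 8) (by omega)).1, enc8]
  · intro h
    refine ⟨fun x hx => ⟨?_, h.lt x hx⟩, h.q2⟩
    obtain ⟨k, c, hc, rfl⟩ : ∃ k c, c < 9 ∧ x = 9 * k + c :=
      ⟨x / 9, x % 9, Nat.mod_lt _ (by norm_num), by omega⟩
    have hk : k < J := by omega
    interval_cases c
    · rw [add_zero, enc0, h.R k hk]
    · rw [enc1, h.md k hk]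
    · rw [enc2, h.nd k hk]
    · rw [enc3, h.sg k hk]
    · rw [enc4, h.qa k hk]
    · rw [enc5, h.ac k hk]
    · rw [enc6, h.au k hk]
    · rw [enc7, h.sa k hk]
    · rw [enc8, h.sl k hk]

section

variable (m : Mach) (p l j : ℕ) (a : ℕ → ℕ) (k : ℕ)

theorem opA0 : m.opA p l j a (9 * k) = m.nR p l j a k % p := by
  have h1 : 9 * k % 9 = 0 := by omega
  have h2 : 9 * k / 9 = k := by omega
  unfold Mach.opA
  rw [h1, h2]
  simp [ifz]

theorem opA1 : m.opA p l j a (9 * k + 1) = ifz (eq01 k l) (a (9 * k + 1)) (m.cMd p l j a) % p := by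
  have h1 : (9 * k + 1) % 9 = 1 := by omega
  have h2 : (9 * k + 1) / 9 = k := by omega
  unfold Mach.opA
  rw [h1, h2]
  simp [ifz]

theorem opA2 : m.opA p l j a (9 * k + 2) = ifz (eq01 k l) (a (9 * k + 2)) (m.cNd p l j a) % p := by
  have h1 : (9 * k + 2) % 9 = 2 := by omega
  have h2 : (9 * k + 2) / 9 = k := by omega
  unfold Mach.opA
  rw [h1, h2]
  simp [ifz]

theorem opA3 : m.opA p l j a (9 * k + 3) = ifz (eq01 k l) (a (9 * k + 3)) (m.cSg p l j a) % p := by
  have h1 : (9 * k + 3) % 9 = 3 := by omega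
  have h2 : (9 * k + 3) / 9 = k := by omega
  unfold Mach.opA
  rw [h1, h2]
  simp [ifz]

theorem opA4 : m.opA p l j a (9 * k + 4) = m.nQ p l j a k % p := by
  have h1 : (9 * k + 4) % 9 = 4 := by omega
  have h2 : (9 * k + 4) / 9 = k := by omega
  unfold Mach.opA
  rw [h1, h2]
  simp [ifz]

theorem opA5 : m.opA p l j a (9 * k + 5) = m.nAc p l j a k % p := by
  have h1 : (9 * k + 5) % 9 = 5 := by omega
  have h2 : (9 * k + 5) / 9 = k := by omega
  unfold Mach.opA
  rw [h1, h2]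
  simp [ifz]

theorem opA6 : m.opA p l j a (9 * k + 6) = m.nAu p l j a k % p := by
  have h1 : (9 * k + 6) % 9 = 6 := by omega
  have h2 : (9 * k + 6) / 9 = k := by omega
  unfold Mach.opA
  rw [h1, h2]
  simp [ifz]

theorem opA7 : m.opA p l j a (9 * k + 7) = m.nSa p l j a k % p := by
  have h1 : (9 * k + 7) % 9 = 7 := by omega
  have h2 : (9 * k + 7) / 9 = k := by omega
  unfold Mach.opA
  rw [h1, h2]
  simp [ifz]

theorem opA8 : m.opA p l j a (9 * k + 8) = m.nSl p l j a k % p := by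
  have h1 : (9 * k + 8) % 9 = 8 := by omega
  have h2 : (9 * k + 8) / 9 = k := by omega
  unfold Mach.opA
  rw [h1, h2]
  simp [ifz]

end

/-- A new state is built from its parts. -/
theorem build {p : ℕ} (m : Mach) (hp2 : 2 < p) {J K : ℕ} {a : ℕ → ℕ} {s : Mach.St p}
    (h : Dat m J K a s) {l j : ℕ} (R' : ℕ → ZMod p) (qa' : ℕ → ℕ) (ac' : ℕ → ZMod p)
    (au' : ℕ → ZMod p) (sa' sl' : ℕ → ℕ → ZMod p) (c i g : ℕ)
    (hR : ∀ k < J, ((m.nR p l j a k : ℕ) : ZMod p) = R' k)
    (hc : m.cMd p l j a = c ∧ c < p) (hi : m.cNd p l j a = i ∧ i < p)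
    (hg : m.cSg p l j a = g ∧ g < p)
    (hq : ∀ k < J, m.nQ p l j a k = dig 2 (qa' (k / m.σ)) (k % m.σ))
    (ha : ∀ k < J, ((m.nAc p l j a k : ℕ) : ZMod p) = ac' k)
    (hs : ∀ k < J, ((m.nAu p l j a k : ℕ) : ZMod p) = au' k)
    (hsa : ∀ k < J, ((m.nSa p l j a k : ℕ) : ZMod p) = sa' (k / (m.h + 1)) (k % (m.h + 1)))
    (hsl : ∀ k < J, ((m.nSl p l j a k : ℕ) : ZMod p) = sl' (k / (m.h + 1)) (k % (m.h + 1)))
    (hq2 : ∀ t ≤ K, qa' t < 2 ^ m.σ) :
    Dat m J K (trc (9 * J) (m.opA p l j a))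
      (({ s with R := R', qa := qa', ac := ac', au := au', sa := sa', sl := sl' } :
        Mach.St p).call l c i g) := by
  have hp : 0 < p := by omega
  have ht : ∀ x < 9 * J, trc (9 * J) (m.opA p l j a) x = m.opA p l j a x := fun x hx => if_pos hx
  have hv : ∀ n : ℕ, ∀ z : ZMod p, (n : ZMod p) = z → n % p = z.val := by
    intro n z hz
    rw [← hz, ZMod.val_natCast]
  refine ⟨fun x hx => ?_, fun k hk => ?_, fun k hk => ?_, fun k hk => ?_, fun k hk => ?_,
    fun k hk => ?_, fun k hk => ?_, fun k hk => ?_, fun k hk => ?_, fun k hk => ?_, hq2⟩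
  · rw [ht x hx]
    exact Nat.mod_lt _ hp
  · rw [ht _ (by omega), opA0]
    exact hv _ _ (hR k hk)
  · rw [ht _ (by omega), opA1]
    show _ = Function.update s.md l c k
    by_cases hkl : k = l
    · subst hkl
      rw [Function.update_self, ifz, eq01, if_pos rfl, if_neg (by norm_num), hc.1,
        Nat.mod_eq_of_lt hc.2]
    · rw [Function.update_of_ne hkl, ifz, eq01, if_neg hkl, if_pos rfl,
        Nat.mod_eq_of_lt (h.lt _ (by omega)), h.md k hk]
  · rw [ht _ (by omega), opA2]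
    show _ = Function.update s.nd l i k
    by_cases hkl : k = l
    · subst hkl
      rw [Function.update_self, ifz, eq01, if_pos rfl, if_neg (by norm_num), hi.1,
        Nat.mod_eq_of_lt hi.2]
    · rw [Function.update_of_ne hkl, ifz, eq01, if_neg hkl, if_pos rfl,
        Nat.mod_eq_of_lt (h.lt _ (by omega)), h.nd k hk]
  · rw [ht _ (by omega), opA3]
    show _ = Function.update s.sg l g k
    by_cases hkl : k = l
    · subst hkl
      rw [Function.update_self, ifz, eq01, if_pos rfl, if_neg (by norm_num), hg.1,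
        Nat.mod_eq_of_lt hg.2]
    · rw [Function.update_of_ne hkl, ifz, eq01, if_neg hkl, if_pos rfl,
        Nat.mod_eq_of_lt (h.lt _ (by omega)), h.sg k hk]
  · rw [ht _ (by omega), opA4, hq k hk]
    exact Nat.mod_eq_of_lt ((dig_lt (by norm_num) _ _).trans hp2)
  · rw [ht _ (by omega), opA5]
    exact hv _ _ (ha k hk)
  · rw [ht _ (by omega), opA6]
    exact hv _ _ (hs k hk)
  · rw [ht _ (by omega), opA7]
    exact hv _ _ (hsa k hk)
  · rw [ht _ (by omega), opA8]
    exact hv _ _ (hsl k hk)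

section

variable {p : ℕ} {m : Mach} {J K : ℕ} {a : ℕ → ℕ} {s : Mach.St p}

theorem Dat.qN (hok : m.Ok) (hf : m.Fit p J K) (h : Dat m J K a s) {t : ℕ} (ht : t ≤ K) :
    m.qN a t = s.qa t := by
  have hσ := hok.hσ
  unfold Mach.qN
  rw [← tab_dig (q := 2) (s.qa t) m.σ (h.q2 t ht)]
  refine tab_congr fun o ho => ?_
  have h1 : t * m.σ + o < J := by
    have h2 := hf.h3
    have h4 : t * m.σ ≤ K * m.σ := Nat.mul_le_mul_right _ ht
    have h5 : (K + 1) * m.σ = K * m.σ + m.σ := by ring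
    omega
  rw [h.qa _ h1]
  have h2 : (t * m.σ + o) / m.σ = t := by
    rw [mul_comm, Nat.mul_add_div hσ, Nat.div_eq_of_lt ho, add_zero]
  have h3 : (t * m.σ + o) % m.σ = o := by
    rw [mul_comm, Nat.mul_add_mod, Nat.mod_eq_of_lt ho]
  rw [h2, h3]

variable [hpr : Fact p.Prime]

theorem Dat.Rc (h : Dat m J K a s) {k : ℕ} (hk : k < J) :
    ((a (9 * k) : ℕ) : ZMod p) = s.R k := by
  rw [h.R k hk, ZMod.natCast_zmod_val]

theorem Dat.acc (h : Dat m J K a s) {k : ℕ} (hk : k < J) :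
    ((a (9 * k + 5) : ℕ) : ZMod p) = s.ac k := by
  rw [h.ac k hk, ZMod.natCast_zmod_val]

theorem Dat.auc (h : Dat m J K a s) {k : ℕ} (hk : k < J) :
    ((a (9 * k + 6) : ℕ) : ZMod p) = s.au k := by
  rw [h.au k hk, ZMod.natCast_zmod_val]

theorem Dat.sac (h : Dat m J K a s) {k : ℕ} (hk : k < J) :
    ((a (9 * k + 7) : ℕ) : ZMod p) = s.sa (k / (m.h + 1)) (k % (m.h + 1)) := by
  rw [h.sa k hk, ZMod.natCast_zmod_val]

theorem Dat.slc (h : Dat m J K a s) {k : ℕ} (hk : k < J) :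
    ((a (9 * k + 8) : ℕ) : ZMod p) = s.sl (k / (m.h + 1)) (k % (m.h + 1)) := by
  rw [h.sl k hk, ZMod.natCast_zmod_val]

/-- The sums and left factors of a block. -/
theorem Dat.lev (hf : m.Fit p J K) (h : Dat m J K a s) {k u : ℕ} (hk : k ≤ K) (hu : u ≤ m.h) :
    ((m.saN a k u : ℕ) : ZMod p) = s.sa k u ∧ ((m.slN a k u : ℕ) : ZMod p) = s.sl k u := by
  have h1 : k * (m.h + 1) + u < J := by
    have h2 := hf.h6
    have h3 : k * (m.h + 1) ≤ K * (m.h + 1) := Nat.mul_le_mul_right _ hk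
    have h4 : (K + 1) * (m.h + 1) = K * (m.h + 1) + (m.h + 1) := by ring
    omega
  have h5 : (k * (m.h + 1) + u) / (m.h + 1) = k := by
    rw [mul_comm, Nat.mul_add_div (Nat.succ_pos _), Nat.div_eq_of_lt (by omega), add_zero]
  have h6 : (k * (m.h + 1) + u) % (m.h + 1) = u := by
    rw [mul_comm, Nat.mul_add_mod, Nat.mod_eq_of_lt (by omega)]
  have h7 := h.sac h1
  have h8 := h.slc h1
  rw [h5, h6] at h7 h8
  exact ⟨h7, h8⟩

/-- The registers stay the same or are changed without an evaluation. -/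
theorem rel_same (hf : m.Fit p J K) (h : Dat m J K a s) {l j : ℕ}
    (hY : m.isY a l = 0) (hZ : m.isZ p a l j = 0) (R' : ℕ → ZMod p) (c i g : ℕ)
    (hR : ∀ k < J, ((m.nR p l j a k : ℕ) : ZMod p) = R' k)
    (hc : m.cMd p l j a = c ∧ c < p) (hi : m.cNd p l j a = i ∧ i < p)
    (hg : m.cSg p l j a = g ∧ g < p) :
    Dat m J K (trc (9 * J) (m.opA p l j a)) (({ s with R := R' } : Mach.St p).call l c i g) := by
  refine build m hf.h5 h R' s.qa s.ac s.au s.sa s.sl c i g hR hc hi hg (fun k hk => ?_)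
    (fun k hk => ?_) (fun k hk => ?_) (fun k hk => ?_) (fun k hk => ?_) h.q2
  · unfold Mach.nQ
    rw [hY, hZ, zero_mul]
    unfold ifz
    split_ifs <;> first | exact h.qa k hk | simp_all
  · unfold Mach.nAc
    rw [hY, zero_mul, ifz_zero, h.acc hk]
  · unfold Mach.nAu
    rw [hY, zero_mul, ifz_zero, h.auc hk]
  · unfold Mach.nSa
    rw [hY, zero_mul, ifz_zero, h.sac hk]
  · unfold Mach.nSl
    rw [hY, zero_mul, ifz_zero, h.slc hk]

end

/-- The operations of a node. -/
theorem relN {p : ℕ} [hpr : Fact p.Prime] {m : Mach} {J K : ℕ} {a : ℕ → ℕ} {s : Mach.St p}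
    (hf : m.Fit p J K) (h : Dat m J K a s) {l j : ℕ}
    (hl : l < K * (m.G + 2)) (hm : l % (m.G + 2) ≠ 0) :
    Dat m J K (trc (9 * J) (m.opA p l j a)) (m.op l j s) := by
  have hp := hf.h5
  have hG := hf.h4
  have hJ : l + 1 < J := lt_of_le_of_lt hl hf.h2
  have e1 := h.md (l + 1) hJ
  have e2 := h.nd (l + 1) hJ
  have e3 := h.sg (l + 1) hJ
  have l3 := h.lt (9 * (l + 1) + 3) (by omega)
  rw [e3] at l3
  have l2 := h.lt (9 * (l + 1) + 2) (by omega)
  rw [e2] at l2
  have hY : m.isY a l = 0 := by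
    unfold Mach.isY
    rw [eq01_neg hm, zero_mul]
  have hZ : m.isZ p a l j = 0 := by
    unfold Mach.isZ
    rw [eq01_neg hm, zero_mul]
  have hop : m.op l j s = m.opN l (l % (m.G + 2)) j s := by
    unfold Mach.op
    rw [if_neg hm]
  rw [hop]
  have hpos : 0 < l % (m.G + 2) := Nat.pos_of_ne_zero hm
  by_cases hA : s.md (l + 1) = 1 ∧ s.nd (l + 1) < l % (m.G + 2)
  · have hN : m.isN a l = 1 := by
      unfold Mach.isN
      rw [e1, e2, lt01_pos hpos, eq01_pos hA.1, lt01_pos hA.2]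
    have hw : j % (2 * m.G + 3) < 2 * m.G + 3 := Nat.mod_lt _ (by omega)
    have hR0 : j % (2 * m.G + 3) ≠ 0 → j % (2 * m.G + 3) ≠ 2 * m.G + 2 →
        ∀ k < J, ((m.nR p l j a k : ℕ) : ZMod p) = s.R k := by
      intro h0 h1 k hk
      unfold Mach.nR
      rw [hY, ifz_zero, hZ, ifz_zero, eq01_neg h1, ifz_zero, ifz_pos h0]
      unfold ifz
      split_ifs <;> exact h.Rc hk
    unfold Mach.opN
    rw [if_pos hA]
    by_cases h0 : j % (2 * m.G + 3) = 0
    · rw [if_pos h0]
      refine rel_same hf h hY hZ _ 0 0 0 (fun k hk => ?_) ⟨?_, by omega⟩ ⟨?_, by omega⟩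
        ⟨?_, by omega⟩
      · unfold Mach.nR Mach.scaR
        rw [hY, hZ, hN, ifz_zero, ifz_zero, h0, ifz_zero, one_mul, e2]
        by_cases hk2 : k < s.nd (l + 1) * m.wn
        · rw [lt01_pos hk2, ifz_pos one_ne_zero, if_pos ⟨Nat.zero_le _, by omega⟩, ZMod.natCast_mod, Nat.cast_mul,
            h.Rc hk]
        · rw [lt01_neg hk2, ifz_zero, if_neg (by omega), h.Rc hk]
      · unfold Mach.cMd
        rw [hY, ifz_zero, hZ, ifz_zero, hN, ifz_pos one_ne_zero, h0, ifz_zero]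
      · unfold Mach.cNd
        rw [hY, ifz_zero, hZ, ifz_zero, hN, ifz_pos one_ne_zero, h0, ifz_zero]
      · unfold Mach.cSg
        rw [hY, ifz_zero, hZ, ifz_zero, hN, ifz_pos one_ne_zero, h0, ifz_zero]
    rw [if_neg h0]
    by_cases h1 : j % (2 * m.G + 3) ≤ m.G
    · rw [if_pos h1]
      have hR := hR0 h0 (by omega)
      by_cases h2 : j % (2 * m.G + 3) - 1 < s.nd (l + 1)
      · rw [if_pos h2]
        refine rel_same hf h hY hZ _ 1 (j % (2 * m.G + 3) - 1) 0 hR ⟨?_, by omega⟩ ⟨?_, by omega⟩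
          ⟨?_, by omega⟩
        · unfold Mach.cMd
          rw [hY, ifz_zero, hZ, ifz_zero, hN, ifz_pos one_ne_zero, ifz_pos h0, le01_pos h1,
            ifz_pos one_ne_zero, e2, lt01_pos h2]
        · unfold Mach.cNd
          rw [hY, ifz_zero, hZ, ifz_zero, hN, ifz_pos one_ne_zero, ifz_pos h0, le01_pos h1,
            ifz_pos one_ne_zero, e2, lt01_pos h2, one_mul]
        · unfold Mach.cSg
          rw [hY, ifz_zero, hZ, ifz_zero, hN, ifz_pos one_ne_zero, ifz_pos h0, le01_pos h1,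
            ifz_pos one_ne_zero]
      · rw [if_neg h2]
        refine rel_same hf h hY hZ _ 0 0 0 hR ⟨?_, by omega⟩ ⟨?_, by omega⟩ ⟨?_, by omega⟩
        · unfold Mach.cMd
          rw [hY, ifz_zero, hZ, ifz_zero, hN, ifz_pos one_ne_zero, ifz_pos h0, le01_pos h1,
            ifz_pos one_ne_zero, e2, lt01_neg h2]
        · unfold Mach.cNd
          rw [hY, ifz_zero, hZ, ifz_zero, hN, ifz_pos one_ne_zero, ifz_pos h0, le01_pos h1,
            ifz_pos one_ne_zero, e2, lt01_neg h2, zero_mul]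
        · unfold Mach.cSg
          rw [hY, ifz_zero, hZ, ifz_zero, hN, ifz_pos one_ne_zero, ifz_pos h0, le01_pos h1,
            ifz_pos one_ne_zero]
    rw [if_neg h1]
    by_cases h3 : j % (2 * m.G + 3) = m.G + 1
    · rw [if_pos h3]
      have hR := hR0 h0 (by omega)
      refine rel_same hf h hY hZ _ 2 (s.nd (l + 1)) (s.sg (l + 1)) hR ⟨?_, by omega⟩ ⟨?_, l2⟩ ⟨?_, l3⟩
      · unfold Mach.cMd
        rw [hY, ifz_zero, hZ, ifz_zero, hN, ifz_pos one_ne_zero, ifz_pos h0, le01_neg h1,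
          ifz_zero, eq01_pos h3, ifz_pos one_ne_zero]
      · unfold Mach.cNd
        rw [hY, ifz_zero, hZ, ifz_zero, hN, ifz_pos one_ne_zero, ifz_pos h0, le01_neg h1,
          ifz_zero, eq01_pos h3, ifz_pos one_ne_zero, e2]
      · unfold Mach.cSg
        rw [hY, ifz_zero, hZ, ifz_zero, hN, ifz_pos one_ne_zero, ifz_pos h0, le01_neg h1,
          ifz_zero, eq01_pos h3, ifz_pos one_ne_zero, e3]
    rw [if_neg h3]
    by_cases h4 : j % (2 * m.G + 3) ≤ 2 * m.G + 1
    · rw [if_pos h4]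
      have hR := hR0 h0 (by omega)
      by_cases h5 : j % (2 * m.G + 3) - (m.G + 2) < s.nd (l + 1)
      · rw [if_pos h5]
        refine rel_same hf h hY hZ _ 1 (j % (2 * m.G + 3) - (m.G + 2)) 1 hR ⟨?_, by omega⟩
          ⟨?_, by omega⟩ ⟨?_, by omega⟩
        · unfold Mach.cMd
          rw [hY, ifz_zero, hZ, ifz_zero, hN, ifz_pos one_ne_zero, ifz_pos h0, le01_neg h1,
            ifz_zero, eq01_neg h3, ifz_zero, le01_pos h4, ifz_pos one_ne_zero, e2, lt01_pos h5]
        · unfold Mach.cNd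
          rw [hY, ifz_zero, hZ, ifz_zero, hN, ifz_pos one_ne_zero, ifz_pos h0, le01_neg h1,
            ifz_zero, eq01_neg h3, ifz_zero, le01_pos h4, ifz_pos one_ne_zero, e2, lt01_pos h5,
            one_mul]
        · unfold Mach.cSg
          rw [hY, ifz_zero, hZ, ifz_zero, hN, ifz_pos one_ne_zero, ifz_pos h0, le01_neg h1,
            ifz_zero, eq01_neg h3, ifz_zero, le01_pos h4, ifz_pos one_ne_zero, e2, lt01_pos h5]
      · rw [if_neg h5]
        refine rel_same hf h hY hZ _ 0 0 0 hR ⟨?_, by omega⟩ ⟨?_, by omega⟩ ⟨?_, by omega⟩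
        · unfold Mach.cMd
          rw [hY, ifz_zero, hZ, ifz_zero, hN, ifz_pos one_ne_zero, ifz_pos h0, le01_neg h1,
            ifz_zero, eq01_neg h3, ifz_zero, le01_pos h4, ifz_pos one_ne_zero, e2, lt01_neg h5]
        · unfold Mach.cNd
          rw [hY, ifz_zero, hZ, ifz_zero, hN, ifz_pos one_ne_zero, ifz_pos h0, le01_neg h1,
            ifz_zero, eq01_neg h3, ifz_zero, le01_pos h4, ifz_pos one_ne_zero, e2, lt01_neg h5,
            zero_mul]
        · unfold Mach.cSg
          rw [hY, ifz_zero, hZ, ifz_zero, hN, ifz_pos one_ne_zero, ifz_pos h0, le01_neg h1,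
            ifz_zero, eq01_neg h3, ifz_zero, le01_pos h4, ifz_pos one_ne_zero, e2, lt01_neg h5]
    · rw [if_neg h4]
      have h6 : j % (2 * m.G + 3) = 2 * m.G + 2 := by omega
      refine rel_same hf h hY hZ _ 0 0 0 (fun k hk => ?_) ⟨?_, by omega⟩ ⟨?_, by omega⟩
        ⟨?_, by omega⟩
      · unfold Mach.nR Mach.scaR
        rw [hY, hZ, hN, ifz_zero, ifz_zero, ifz_pos h0, eq01_pos h6, ifz_pos one_ne_zero, one_mul, e2]
        by_cases hk2 : k < s.nd (l + 1) * m.wn
        · rw [lt01_pos hk2, ifz_pos one_ne_zero, if_pos ⟨Nat.zero_le _, by omega⟩, ZMod.natCast_mod, Nat.cast_mul,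
            h.Rc hk, invN_cast hp]
        · rw [lt01_neg hk2, ifz_zero, if_neg (by omega), h.Rc hk]
      · unfold Mach.cMd
        rw [hY, ifz_zero, hZ, ifz_zero, hN, ifz_pos one_ne_zero, ifz_pos h0, le01_neg h1,
          ifz_zero, eq01_neg h3, ifz_zero, le01_neg h4, ifz_zero]
      · unfold Mach.cNd
        rw [hY, ifz_zero, hZ, ifz_zero, hN, ifz_pos one_ne_zero, ifz_pos h0, le01_neg h1,
          ifz_zero, eq01_neg h3, ifz_zero, le01_neg h4, ifz_zero]
      · unfold Mach.cSg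
        rw [hY, ifz_zero, hZ, ifz_zero, hN, ifz_pos one_ne_zero, ifz_pos h0, le01_neg h1,
          ifz_zero, eq01_neg h3, ifz_zero, le01_neg h4, ifz_zero]
  · have hN : m.isN a l = 0 := by
      unfold Mach.isN
      rw [e1, e2, lt01_pos hpos, one_mul]
      by_cases h1 : s.md (l + 1) = 1
      · rw [lt01_neg fun h2 => hA ⟨h1, h2⟩, mul_zero]
      · rw [eq01_neg h1, zero_mul]
    have hR : ∀ k < J, ((m.nR p l j a k : ℕ) : ZMod p) = s.R k := by
      intro k hk
      unfold Mach.nR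
      rw [hY, hZ, hN, ifz_zero, ifz_zero, zero_mul, ifz_zero, h.Rc hk]
    unfold Mach.opN
    rw [if_neg hA]
    by_cases hB : s.md (l + 1) = 2 ∧ s.nd (l + 1) ≤ m.G ∧ j = 0
    · have hP : m.isP a l j = 1 := by
        unfold Mach.isP
        rw [e1, e2, lt01_pos hpos, eq01_pos hB.1, le01_pos hB.2.1, eq01_pos hB.2.2]
      rw [if_pos hB]
      refine rel_same hf h hY hZ _ 2 (s.nd (l + 1)) (s.sg (l + 1)) hR ⟨?_, by omega⟩ ⟨?_, l2⟩ ⟨?_, l3⟩
      · unfold Mach.cMd
        rw [hY, hZ, hN, ifz_zero, ifz_zero, ifz_zero, hP, ifz_pos one_ne_zero]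
      · unfold Mach.cNd
        rw [hY, hZ, hN, ifz_zero, ifz_zero, ifz_zero, hP, ifz_pos one_ne_zero, e2]
      · unfold Mach.cSg
        rw [hY, hZ, hN, ifz_zero, ifz_zero, ifz_zero, hP, ifz_pos one_ne_zero, e3]
    · have hP : m.isP a l j = 0 := by
        unfold Mach.isP
        rw [e1, e2, lt01_pos hpos, one_mul]
        by_cases h1 : s.md (l + 1) = 2
        · by_cases h2 : s.nd (l + 1) ≤ m.G
          · rw [eq01_neg fun h3 => hB ⟨h1, h2, h3⟩, mul_zero]
          · rw [le01_neg h2, mul_zero, zero_mul]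
        · rw [eq01_neg h1, zero_mul, zero_mul]
      rw [if_neg hB]
      refine rel_same hf h hY hZ _ 0 0 0 hR ⟨?_, by omega⟩ ⟨?_, by omega⟩ ⟨?_, by omega⟩
      · unfold Mach.cMd
        rw [hY, hZ, hN, ifz_zero, ifz_zero, ifz_zero, hP, ifz_zero]
      · unfold Mach.cNd
        rw [hY, hZ, hN, ifz_zero, ifz_zero, ifz_zero, hP, ifz_zero]
      · unfold Mach.cSg
        rw [hY, hZ, hN, ifz_zero, ifz_zero, ifz_zero, hP, ifz_zero]

/-- The registers of the content. -/
theorem rgn_pos {lo n x : ℕ} (h : lo ≤ x ∧ x < lo + n) : rgn lo n x = 1 := by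
  unfold rgn
  rw [le01_pos h.1, lt01_pos h.2]

theorem rgn_neg {lo n x : ℕ} (h : ¬(lo ≤ x ∧ x < lo + n)) : rgn lo n x = 0 := by
  unfold rgn
  by_cases h1 : lo ≤ x
  · rw [lt01_neg fun h2 => h ⟨h1, h2⟩, mul_zero]
  · rw [le01_neg h1, zero_mul]

/-- Multiplication of a range of registers. -/
theorem sca_case {p : ℕ} [Fact p.Prime] {m : Mach} {J K : ℕ} {a : ℕ → ℕ} {s : Mach.St p}
    (h : Dat m J K a s) {x : ℕ} (hx : x < J) (lo n c : ℕ) (u : ZMod p) (hc : ((c : ℕ) : ZMod p) = u) :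
    ((ifz (rgn lo n x) (a (9 * x)) (c * a (9 * x) % p) : ℕ) : ZMod p) = Mach.scaR lo n u s.R x := by
  unfold Mach.scaR
  by_cases h1 : lo ≤ x ∧ x < lo + n
  · rw [rgn_pos h1, ifz_pos one_ne_zero, if_pos h1, ZMod.natCast_mod, Nat.cast_mul, hc, h.Rc hx]
  · rw [rgn_neg h1, ifz_zero, if_neg h1, h.Rc hx]

/-- The variables of a node. -/
theorem vars_cast {p : ℕ} [Fact p.Prime] {m : Mach} {J K : ℕ} {a : ℕ → ℕ} {s : Mach.St p}
    (hf : m.Fit p J K) (h : Dat m J K a s) {i : ℕ} (hi : i ≤ m.G) (k : ℕ) (_ : 0 < p) (_ : 0 < p)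
    (j' : ℕ) (hj' : j' < m.nv i) :
    m.varN i (fun i => a (9 * i)) (fun o => a (9 * (m.cl k + o))) j' < p ∧
      ((m.varN i (fun i => a (9 * i)) (fun o => a (9 * (m.cl k + o))) j' : ℕ) : ZMod p) =
        m.vars p i s.R (fun o => s.R (m.cl k + o)) j' := by
  have h1 := hf.h1
  have h2 : i * m.wn ≤ m.G * m.wn := Nat.mul_le_mul_right _ hi
  unfold Mach.nv at hj'
  unfold Mach.varN Mach.vars
  by_cases h3 : j' < i * m.wn
  · have h4 : j' < J := by omega
    rw [lt01_pos h3, ifz_pos one_ne_zero, if_pos h3]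
    exact ⟨h.lt _ (by omega), h.Rc h4⟩
  · have h4 : m.cl k + (j' - i * m.wn) < J := by
      have h5 : k % 2 * m.wc ≤ 1 * m.wc := Nat.mul_le_mul_right _ (by omega)
      unfold Mach.cl
      omega
    rw [lt01_neg h3, ifz_zero, if_neg h3]
    exact ⟨h.lt _ (by omega), h.Rc h4⟩

/-- The operations of the evaluation of the polynomials of a node before `G`. -/
theorem relY {p : ℕ} [hpr : Fact p.Prime] {m : Mach} {J K : ℕ} {a : ℕ → ℕ} {s : Mach.St p}
    (hok : m.Ok) (hf : m.Fit p J K) (h : Dat m J K a s)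
    {l j : ℕ} (hl : l < K * (m.G + 2)) (hm : l % (m.G + 2) = 0)
    (hA : s.md (l + 1) = 2 ∧ s.nd (l + 1) < m.G) :
    Dat m J K (trc (9 * J) (m.opA p l j a))
      (m.opY l (l / (m.G + 2)) (j / m.ny p) (j % m.ny p) s) := by
  have hp := hf.h5
  have hG := hf.h4
  have hJ : l + 1 < J := lt_of_le_of_lt hl hf.h2
  have e1 := h.md (l + 1) hJ
  have e2 := h.nd (l + 1) hJ
  have e3 := h.sg (l + 1) hJ
  have hkK : l / (m.G + 2) < K := by
    rw [Nat.div_lt_iff_lt_mul (by omega)]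
    exact hl
  have hJk : l / (m.G + 2) < J := by
    have h3 := hf.h2
    have h4 : K ≤ K * (m.G + 2) := Nat.le_mul_of_pos_right _ (by omega)
    omega
  have hacc := h.acc hJk
  have hauc := h.auc hJk
  have hY : m.isY a l = 1 := by
    unfold Mach.isY
    rw [eq01_pos hm, e1, e2, eq01_pos hA.1, lt01_pos hA.2]
  have hnR : ∀ x, m.nR p l j a x = m.yR p (l / (m.G + 2)) (s.nd (l + 1)) (j / m.ny p)
      (j % m.ny p) (s.sg (l + 1)) (a (9 * (l / (m.G + 2)) + 5)) a x := by
    intro x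
    unfold Mach.nR
    rw [hY, ifz_pos one_ne_zero, e2, e3]
  have hMd : m.cMd p l j a = ifz (m.isL p (j % m.ny p)) (lt01 (j % m.ny p % 3) 2) 0 := by
    unfold Mach.cMd
    rw [hY, ifz_pos one_ne_zero]
  have hNd : m.cNd p l j a = ifz (m.isL p (j % m.ny p)) (lt01 (j % m.ny p % 3) 2 * m.G) 0 := by
    unfold Mach.cNd
    rw [hY, ifz_pos one_ne_zero]
  have hSg : m.cSg p l j a = ifz (m.isL p (j % m.ny p)) (eq01 (j % m.ny p % 3) 1) 0 := by
    unfold Mach.cSg
    rw [hY, ifz_pos one_ne_zero]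
  have hnQ : ∀ x, m.nQ p l j a x = ifz (eq01 (x / m.σ) (l / (m.G + 2))) (a (9 * x + 4))
      (ifz (m.isL p (j % m.ny p))
        (ifz (j % m.ny p % 3)
          (dig 2 (m.qy (j / m.ny p) (j % m.ny p / 3 / (p - 1))) (x % m.σ))
          (a (9 * x + 4)))
        (a (9 * x + 4))) := by
    intro x
    unfold Mach.nQ
    rw [hY, ifz_pos one_ne_zero]
  have hnAc : ∀ x, m.nAc p l j a x = ifz (eq01 x (l / (m.G + 2))) (a (9 * x + 5))
      (ifz (m.isF p (j % m.ny p))
        (ifz (j % m.ny p) 1 (a (9 * x + 5)))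
        (m.nacN p (j % m.ny p / 3 / (p - 1) % (m.sv + 1)) (p - a (9 * x + 6)) (m.saN a x)
          (m.slN a x) (a (9 * x + 5)) % p)) := by
    intro x
    unfold Mach.nAc
    rw [hY, one_mul]
  have hnSa : ∀ x, m.nSa p l j a x = ifz (eq01 (x / (m.h + 1)) (l / (m.G + 2)) *
      m.isF p (j % m.ny p)) (a (9 * x + 7))
      (m.nsaN p (j % m.ny p / 3 / (p - 1) % (m.sv + 1)) (p - a (9 * (l / (m.G + 2)) + 6))
        (m.saN a (l / (m.G + 2))) (m.slN a (l / (m.G + 2))) (x % (m.h + 1)) % p) := by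
    intro x
    unfold Mach.nSa
    rw [hY, one_mul]
  have hnSl : ∀ x, m.nSl p l j a x = ifz (eq01 (x / (m.h + 1)) (l / (m.G + 2)) *
      m.isF p (j % m.ny p)) (a (9 * x + 8))
      (m.nslN p (j % m.ny p / 3 / (p - 1) % (m.sv + 1)) (p - a (9 * (l / (m.G + 2)) + 6))
        (m.saN a (l / (m.G + 2))) (m.slN a (l / (m.G + 2))) (x % (m.h + 1)) % p) := by
    intro x
    unfold Mach.nSl
    rw [hY, one_mul]
  have hnAu : ∀ x, m.nAu p l j a x = ifz (eq01 x (l / (m.G + 2))) (a (9 * x + 6))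
      (ifz (m.isL p (j % m.ny p))
        (ifz (j % m.ny p % 3)
          (ifz (j % m.ny p / 3 % (p - 1)) 0 (a (9 * x + 6)))
          (ifz (j % m.ny p % 3 - 1)
            ((a (9 * x + 6) + fhG p (m.nv (s.nd (l + 1)))
              (m.bf (s.nd (l + 1)) (j / m.ny p) (j % m.ny p / 3 / (p - 1))) 0
              (m.varN (s.nd (l + 1)) (fun i => a (9 * i))
                fun o => a (9 * (m.cl (l / (m.G + 2)) + o)))) % p)
            (a (9 * x + 6))))
        (a (9 * x + 6))) := by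
    intro x
    unfold Mach.nAu
    rw [hY, one_mul, e2]
  generalize hk : l / (m.G + 2) = k at *
  generalize hy : j / m.ny p = y at *
  generalize he : j % m.ny p = e at *
  generalize hi : s.nd (l + 1) = i at *
  generalize hg : s.sg (l + 1) = g at *
  have hkeepA : m.isF p e = 0 → e ≠ 0 → ∀ x < J, ((m.nAc p l j a x : ℕ) : ZMod p) = s.ac x := by
    intro hF0 he0 x hx
    rw [hnAc x, hF0, ifz_zero, ifz_pos he0]
    unfold ifz
    split_ifs <;> exact h.acc hx
  have hkeepSa : m.isF p e = 0 → ∀ x < J,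
      ((m.nSa p l j a x : ℕ) : ZMod p) = s.sa (x / (m.h + 1)) (x % (m.h + 1)) := by
    intro hF0 x hx
    rw [hnSa x, hF0, mul_zero, ifz_zero]
    exact h.sac hx
  have hkeepSl : m.isF p e = 0 → ∀ x < J,
      ((m.nSl p l j a x : ℕ) : ZMod p) = s.sl (x / (m.h + 1)) (x % (m.h + 1)) := by
    intro hF0 x hx
    rw [hnSl x, hF0, mul_zero, ifz_zero]
    exact h.slc hx
  unfold Mach.opY
  rw [hi, hg]
  by_cases h1 : e = 3 * (m.nl * (p - 1))
  · rw [if_pos h1]
    have hL : m.isL p e = 1 := eq01_pos h1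
    have hF0 : m.isF p e = 0 := by
      unfold Mach.isF
      rw [hL, ifz_pos one_ne_zero]
    have he0 : e ≠ 0 := by
      have h2 : 0 < m.nl := by
        unfold Mach.nl
        exact Nat.mul_pos hok.hb (Nat.succ_pos _)
      have h3 : 0 < m.nl * (p - 1) := Nat.mul_pos h2 (by omega)
      omega
    refine build m hp h _ s.qa s.ac s.au s.sa s.sl 0 0 0 (fun x hx => ?_) ⟨?_, by omega⟩
      ⟨?_, by omega⟩ ⟨?_, by omega⟩ (fun x hx => ?_) (hkeepA hF0 he0) (fun x hx => ?_)
      (hkeepSa hF0) (hkeepSl hF0) h.q2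
    · rw [hnR x]
      unfold Mach.yR Mach.addR Mach.lo Mach.ln
      rw [hL, ifz_pos one_ne_zero, if_pos hA.2, if_pos hA.2]
      by_cases h2 : i * m.wn ≤ x ∧ x < i * m.wn + m.wn
      · rw [rgn_pos h2, ifz_pos one_ne_zero, if_pos h2, ZMod.natCast_mod, Nat.cast_add,
          Nat.cast_mul, Nat.cast_mul, h.Rc hx, hacc]
        congr 1
        unfold bitZ
        by_cases hs : g = 0
        · rw [hs, ifz_zero, Nat.cast_sub (by omega), ZMod.natCast_self, sgz, if_pos rfl]
          push_cast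
          ring
        · rw [ifz_pos hs, sgz, if_neg hs]
          push_cast
          ring
      · rw [rgn_neg h2, ifz_zero, if_neg h2, h.Rc hx]
    · rw [hMd, hL, ifz_pos one_ne_zero]
    · rw [hNd, hL, ifz_pos one_ne_zero]
    · rw [hSg, hL, ifz_pos one_ne_zero]
    · rw [hnQ x, hL, ifz_pos one_ne_zero]
      unfold ifz
      split_ifs <;> exact h.qa x hx
    · rw [hnAu x, hL, ifz_pos one_ne_zero]
      unfold ifz
      split_ifs <;> exact h.auc hx
  rw [if_neg h1]
  have hL : m.isL p e = 0 := eq01_neg h1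
  rw [hL, ifz_zero] at hMd hNd hSg
  by_cases h2 : e % 3 = 0
  · rw [if_pos h2]
    have hF0 : m.isF p e = 0 := by
      unfold Mach.isF
      rw [hL, ifz_zero, eq01_neg (x := e % 3) (by omega), zero_mul]
    refine build m hp h _ _ _ _ s.sa s.sl 1 m.G 0 (fun x hx => ?_) ⟨?_, by omega⟩ ⟨?_, hG⟩
      ⟨?_, by omega⟩ (fun x hx => ?_) (fun x hx => ?_) (fun x hx => ?_) (hkeepSa hF0)
      (hkeepSl hF0) (fun t ht => ?_)
    · rw [hnR x]
      unfold Mach.yR
      rw [hL, ifz_zero, h2, ifz_zero]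
      exact sca_case h hx _ _ _ _ rfl
    · rw [hMd, h2, lt01_pos (by norm_num)]
    · rw [hNd, h2, lt01_pos (by norm_num), one_mul]
    · rw [hSg, h2, eq01_neg (by norm_num)]
    · rw [hnQ x, hL, ifz_zero, h2, ifz_zero]
      by_cases h3 : x / m.σ = k
      · rw [eq01_pos h3, ifz_pos one_ne_zero, h3, Function.update_self]
      · rw [eq01_neg h3, ifz_zero, Function.update_of_ne h3, h.qa x hx]
    · rw [hnAc x, hF0, ifz_zero]
      by_cases h3 : x = k
      · rw [eq01_pos h3, ifz_pos one_ne_zero, h3, Function.update_self]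
        by_cases h4 : e = 0
        · rw [h4, ifz_zero, if_pos rfl, Nat.cast_one]
        · rw [ifz_pos h4, if_neg h4, hacc]
      · rw [eq01_neg h3, ifz_zero, Function.update_of_ne h3, h.acc hx]
    · rw [hnAu x, hL, ifz_zero, h2, ifz_zero]
      by_cases h3 : x = k
      · rw [eq01_pos h3, ifz_pos one_ne_zero, h3, Function.update_self]
        by_cases h4 : e / 3 % (p - 1) = 0
        · rw [h4, ifz_zero, if_pos rfl, Nat.cast_zero]
        · rw [ifz_pos h4, if_neg h4, hauc]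
      · rw [eq01_neg h3, ifz_zero, Function.update_of_ne h3, h.auc hx]
    · by_cases ht2 : t = k
      · rw [ht2, Function.update_self]
        exact hok.hA _
      · rw [Function.update_of_ne ht2]
        exact h.q2 t ht
  rw [if_neg h2]
  have he0 : e ≠ 0 := by
    intro h3
    rw [h3] at h2
    exact h2 rfl
  by_cases h3 : e % 3 = 1
  · rw [if_pos h3]
    have hF0 : m.isF p e = 0 := by
      unfold Mach.isF
      rw [hL, ifz_zero, eq01_neg (x := e % 3) (by omega), zero_mul]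
    refine build m hp h s.R s.qa s.ac _ s.sa s.sl 1 m.G 1 (fun x hx => ?_) ⟨?_, by omega⟩
      ⟨?_, hG⟩ ⟨?_, by omega⟩ (fun x hx => ?_) (hkeepA hF0 he0) (fun x hx => ?_)
      (hkeepSa hF0) (hkeepSl hF0) h.q2
    · rw [hnR x]
      unfold Mach.yR
      rw [hL, ifz_zero, h3, ifz_pos one_ne_zero, Nat.sub_self, ifz_zero]
      unfold ifz
      split_ifs <;> exact h.Rc hx
    · rw [hMd, h3, lt01_pos (by norm_num)]
    · rw [hNd, h3, lt01_pos (by norm_num), one_mul]
    · rw [hSg, h3, eq01_pos rfl]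
    · rw [hnQ x, hL, ifz_zero, h3, ifz_pos one_ne_zero]
      unfold ifz
      split_ifs <;> exact h.qa x hx
    · rw [hnAu x, hL, ifz_zero, h3, ifz_pos one_ne_zero, Nat.sub_self, ifz_zero]
      by_cases h4 : x = k
      · rw [eq01_pos h4, ifz_pos one_ne_zero, h4, Function.update_self, ZMod.natCast_mod,
          Nat.cast_add, hauc]
        congr 1
        refine FCAST.1 p _ _ _ _ _ fun j' hj' => ?_
        exact vars_cast hf h hA.2.le k (by omega) (by omega) j' hj'
      · rw [eq01_neg h4, ifz_zero, Function.update_of_ne h4, h.auc hx]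
  rw [if_neg h3]
  have h4 : e % 3 = 2 := by omega
  have hR2 : ∀ x < J, ((m.nR p l j a x : ℕ) : ZMod p) =
      Mach.scaR (m.cl k) m.wc ((e / 3 % (p - 1) + 1 : ℕ) : ZMod p)⁻¹ s.R x := by
    intro x hx
    rw [hnR x]
    unfold Mach.yR
    rw [hL, ifz_zero, h4, ifz_pos two_ne_zero, ifz_pos (c := 2 - 1) (by norm_num)]
    exact sca_case h hx _ _ _ _ (invN_cast hp _)
  have hQ2 : ∀ x < J, m.nQ p l j a x = dig 2 (s.qa (x / m.σ)) (x % m.σ) := by
    intro x hx
    rw [hnQ x, hL, ifz_zero, h4, ifz_pos two_ne_zero]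
    unfold ifz
    split_ifs <;> exact h.qa x hx
  have hU2 : ∀ x < J, ((m.nAu p l j a x : ℕ) : ZMod p) = s.au x := by
    intro x hx
    rw [hnAu x, hL, ifz_zero, h4, ifz_pos two_ne_zero, ifz_pos (c := 2 - 1) (by norm_num)]
    unfold ifz
    split_ifs <;> exact h.auc hx
  by_cases h6 : e / 3 % (p - 1) = p - 2
  · rw [if_pos h6]
    have hF1 : m.isF p e = 1 := by
      unfold Mach.isF
      rw [hL, ifz_zero, eq01_pos h4, eq01_pos h6]
    have hkK' : k ≤ K := hkK.le
    have hlev : ∀ t ≤ m.h, ((m.saN a k t : ℕ) : ZMod p) = s.sa k t ∧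
        ((m.slN a k t : ℕ) : ZMod p) = s.sl k t := fun t ht => h.lev hf hkK' ht
    generalize hw : e / 3 / (p - 1) % (m.sv + 1) = w at *
    have h7 := h.lt (9 * k + 6) (by omega)
    have hcc : ((p - a (9 * k + 6) : ℕ) : ZMod p) = -s.au k := by
      rw [Nat.cast_sub h7.le, ZMod.natCast_self, zero_sub, hauc]
    have hcv : ∀ u ≤ m.h + 1, ((m.cvN p w (p - a (9 * k + 6)) (m.saN a k) (m.slN a k) u : ℕ) :
        ZMod p) = m.cv p w (-s.au k) (s.sa k) (s.sl k) u := by
      intro u hu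
      rw [← hcc]
      exact FCAST.2 m p w _ u _ _ _ _ fun t ht => hlev t (by omega)
    have hrch : ∀ u, m.rch w u = 0 ∨ m.rch w u = 1 := by
      intro u
      unfold Mach.rch eq01
      split_ifs
      · exact Or.inr rfl
      · exact Or.inl rfl
    refine build m hp h _ s.qa (Function.update s.ac k _) s.au (Function.update s.sa k _)
      (Function.update s.sl k _) 0 0 0 hR2 ⟨?_, by omega⟩ ⟨?_, by omega⟩
      ⟨?_, by omega⟩ hQ2 (fun x hx => ?_) hU2 (fun x hx => ?_) (fun x hx => ?_) h.q2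
    · rw [hMd, h4, lt01_neg (by norm_num)]
    · rw [hNd, h4, lt01_neg (by norm_num), zero_mul]
    · rw [hSg, h4, eq01_neg (by norm_num)]
    · rw [hnAc x, hF1, ifz_pos one_ne_zero]
      by_cases h5 : x = k
      · rw [eq01_pos h5, ifz_pos one_ne_zero, h5, Function.update_self, ZMod.natCast_mod]
        show _ = m.nac p w (-s.au k) (s.sa k) (s.sl k) (s.ac k)
        unfold Mach.nacN Mach.nac
        by_cases h8 : w = m.sv
        · rw [eq01_pos h8, ifz_pos one_ne_zero, if_pos h8, Nat.cast_mul, hcc, hacc]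
        · rw [eq01_neg h8, ifz_zero, if_neg h8]
          by_cases h9 : w + 1 = m.sv
          · rw [eq01_pos h9, ifz_pos one_ne_zero, if_pos h9, Nat.cast_mul, hacc,
              hcv m.h (by omega)]
          · rw [eq01_neg h9, ifz_zero, if_neg h9, hacc]
      · rw [eq01_neg h5, ifz_zero, Function.update_of_ne h5, h.acc hx]
    · have hxm : x % (m.h + 1) ≤ m.h := Nat.lt_succ_iff.1 (Nat.mod_lt _ (Nat.succ_pos _))
      rw [hnSa x, hF1, mul_one]
      by_cases h5 : x / (m.h + 1) = k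
      · rw [eq01_pos h5, ifz_pos one_ne_zero, h5, Function.update_self, ZMod.natCast_mod]
        show _ = m.nsa p w (-s.au k) (s.sa k) (s.sl k) (x % (m.h + 1))
        generalize x % (m.h + 1) = u at *
        unfold Mach.nsaN Mach.nsa
        by_cases h8 : w < m.sv ∧ m.rch w u = 1 ∧ m.sd w u = 1
        · rw [if_pos h8, lt01_pos h8.1, h8.2.1, eq01_pos h8.2.2, one_mul, one_mul,
            ifz_pos one_ne_zero, hcv (u + 1) (by omega)]
        · rw [if_neg h8]
          have h9 : lt01 w m.sv * (m.rch w u * eq01 (m.sd w u) 1) = 0 := by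
            by_cases a1 : w < m.sv
            · by_cases a2 : m.sd w u = 1
              · rcases hrch u with a3 | a3
                · rw [a3, zero_mul, mul_zero]
                · exact absurd ⟨a1, a3, a2⟩ h8
              · rw [eq01_neg a2, mul_zero, mul_zero]
            · rw [lt01_neg a1, zero_mul]
          rw [h9, ifz_zero, (hlev u hxm).1]
      · rw [eq01_neg h5, ifz_zero, Function.update_of_ne h5]
        exact h.sac hx
    · have hxm : x % (m.h + 1) ≤ m.h := Nat.lt_succ_iff.1 (Nat.mod_lt _ (Nat.succ_pos _))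
      rw [hnSl x, hF1, mul_one]
      by_cases h5 : x / (m.h + 1) = k
      · rw [eq01_pos h5, ifz_pos one_ne_zero, h5, Function.update_self, ZMod.natCast_mod]
        show _ = m.nsl p w (-s.au k) (s.sa k) (s.sl k) (x % (m.h + 1))
        generalize x % (m.h + 1) = u at *
        unfold Mach.nslN Mach.nsl
        by_cases h8 : w < m.sv ∧ m.rch w u = 1 ∧ m.sd w u = 0
        · rw [if_pos h8, lt01_pos h8.1, h8.2.1, eq01_pos h8.2.2, one_mul, one_mul,
            ifz_pos one_ne_zero, hcv u (by omega)]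
        · rw [if_neg h8]
          have h9 : lt01 w m.sv * (m.rch w u * eq01 (m.sd w u) 0) = 0 := by
            by_cases a1 : w < m.sv
            · by_cases a2 : m.sd w u = 0
              · rcases hrch u with a3 | a3
                · rw [a3, zero_mul, mul_zero]
                · exact absurd ⟨a1, a3, a2⟩ h8
              · rw [eq01_neg a2, mul_zero, mul_zero]
            · rw [lt01_neg a1, zero_mul]
          rw [h9, ifz_zero, (hlev u hxm).2]
      · rw [eq01_neg h5, ifz_zero, Function.update_of_ne h5]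
        exact h.slc hx
  rw [if_neg h6]
  have hF0 : m.isF p e = 0 := by
    unfold Mach.isF
    rw [hL, ifz_zero, eq01_neg h6, mul_zero]
  refine build m hp h _ s.qa s.ac s.au s.sa s.sl 0 0 0 hR2 ⟨?_, by omega⟩ ⟨?_, by omega⟩
    ⟨?_, by omega⟩ hQ2 (hkeepA hF0 he0) hU2 (hkeepSa hF0) (hkeepSl hF0) h.q2
  · rw [hMd, h4, lt01_neg (by norm_num)]
  · rw [hNd, h4, lt01_neg (by norm_num), zero_mul]
  · rw [hSg, h4, eq01_neg (by norm_num)]

/-- The operations of the evaluation of the polynomials of the node `G`. -/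
theorem relZ {p : ℕ} [hpr : Fact p.Prime] {m : Mach} {J K : ℕ} {a : ℕ → ℕ} {s : Mach.St p}
    (hok : m.Ok) (hf : m.Fit p J K) (h : Dat m J K a s)
    {l j : ℕ} (hl : l < K * (m.G + 2)) (hm : l % (m.G + 2) = 0)
    (hA : s.md (l + 1) = 2 ∧ s.nd (l + 1) = m.G ∧ j < 3 * (p - 1)) :
    Dat m J K (trc (9 * J) (m.opA p l j a)) (m.opZ l (l / (m.G + 2)) j s) := by
  have hp := hf.h5
  have hG := hf.h4
  have hσ := hok.hσ
  have hJ : l + 1 < J := lt_of_le_of_lt hl hf.h2
  have e1 := h.md (l + 1) hJ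
  have e2 := h.nd (l + 1) hJ
  have e3 := h.sg (l + 1) hJ
  have hkK : l / (m.G + 2) < K := by
    rw [Nat.div_lt_iff_lt_mul (by omega)]
    exact hl
  have hJk : l / (m.G + 2) < J := by
    have h3 := hf.h2
    have h4 : K ≤ K * (m.G + 2) := Nat.le_mul_of_pos_right _ (by omega)
    omega
  have hqk : m.qN a (l / (m.G + 2) + 1) = s.qa (l / (m.G + 2) + 1) := h.qN hok hf hkK
  have hY : m.isY a l = 0 := by
    unfold Mach.isY
    rw [e1, e2, lt01_neg (by omega), mul_zero, mul_zero]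
  have hZ : m.isZ p a l j = 1 := by
    unfold Mach.isZ
    rw [eq01_pos hm, e1, e2, eq01_pos hA.1, eq01_pos hA.2.1, lt01_pos hA.2.2]
  have hnR : ∀ x, m.nR p l j a x = m.zR p (l / (m.G + 2)) (s.qa (l / (m.G + 2) + 1)) j
      (s.sg (l + 1)) a x := by
    intro x
    unfold Mach.nR
    rw [hY, hZ, ifz_zero, ifz_pos one_ne_zero, hqk, e3]
  have hMd : m.cMd p l j a = lt01 (j % 3) 2 := by
    unfold Mach.cMd
    rw [hY, hZ, ifz_zero, ifz_pos one_ne_zero]
  have hNd : m.cNd p l j a = lt01 (j % 3) 2 * m.G := by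
    unfold Mach.cNd
    rw [hY, hZ, ifz_zero, ifz_pos one_ne_zero]
  have hSg : m.cSg p l j a = eq01 (j % 3) 1 := by
    unfold Mach.cSg
    rw [hY, hZ, ifz_zero, ifz_pos one_ne_zero]
  have hnQ : ∀ x, m.nQ p l j a x = ifz (eq01 (x / m.σ) (l / (m.G + 2))) (a (9 * x + 4))
      (ifz (eq01 (j % 3) 0) (a (9 * x + 4)) (a (9 * (x + m.σ) + 4))) := by
    intro x
    unfold Mach.nQ
    rw [hY, hZ, ifz_zero, one_mul]
  have hAc : ∀ x < J, ((m.nAc p l j a x : ℕ) : ZMod p) = s.ac x := by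
    intro x hx
    unfold Mach.nAc
    rw [hY, zero_mul, ifz_zero, h.acc hx]
  have hAu : ∀ x < J, ((m.nAu p l j a x : ℕ) : ZMod p) = s.au x := by
    intro x hx
    unfold Mach.nAu
    rw [hY, zero_mul, ifz_zero, h.auc hx]
  have hSa : ∀ x < J,
      ((m.nSa p l j a x : ℕ) : ZMod p) = s.sa (x / (m.h + 1)) (x % (m.h + 1)) := by
    intro x hx
    unfold Mach.nSa
    rw [hY, zero_mul, ifz_zero, h.sac hx]
  have hSl : ∀ x < J,
      ((m.nSl p l j a x : ℕ) : ZMod p) = s.sl (x / (m.h + 1)) (x % (m.h + 1)) := by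
    intro x hx
    unfold Mach.nSl
    rw [hY, zero_mul, ifz_zero, h.slc hx]
  generalize hk : l / (m.G + 2) = k at *
  generalize hg : s.sg (l + 1) = g at *
  unfold Mach.opZ
  rw [hg]
  by_cases h2 : j % 3 = 0
  · rw [if_pos h2]
    refine build m hp h _ _ s.ac s.au s.sa s.sl 1 m.G 0 (fun x hx => ?_) ⟨?_, by omega⟩ ⟨?_, hG⟩
      ⟨?_, by omega⟩ (fun x hx => ?_) hAc hAu hSa hSl (fun t ht => ?_)
    · rw [hnR x]
      unfold Mach.zR
      rw [h2, ifz_zero]
      exact sca_case h hx _ _ _ _ rfl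
    · rw [hMd, h2, lt01_pos (by norm_num)]
    · rw [hNd, h2, lt01_pos (by norm_num), one_mul]
    · rw [hSg, h2, eq01_neg (by norm_num)]
    · rw [hnQ x, eq01_pos h2, ifz_pos one_ne_zero]
      by_cases h3 : x / m.σ = k
      · have h4 : x + m.σ < J := by
          have h5 : x < (k + 1) * m.σ := by
            rw [← Nat.div_lt_iff_lt_mul hσ]
            omega
          have h6 := hf.h3
          have h7 : (k + 1) * m.σ + m.σ ≤ (K + 1) * m.σ := by
            have : (k + 2) * m.σ ≤ (K + 1) * m.σ := Nat.mul_le_mul_right _ (by omega)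
            calc (k + 1) * m.σ + m.σ = (k + 2) * m.σ := by ring
              _ ≤ _ := this
          omega
        rw [eq01_pos h3, ifz_pos one_ne_zero, h.qa _ h4, Nat.add_div_right _ hσ,
          Nat.add_mod_right, h3, Function.update_self]
      · rw [eq01_neg h3, ifz_zero, Function.update_of_ne h3, h.qa x hx]
    · by_cases ht2 : t = k
      · rw [ht2, Function.update_self]
        exact h.q2 _ hkK
      · rw [Function.update_of_ne ht2]
        exact h.q2 t ht
  rw [if_neg h2]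
  have hQ : ∀ x < J, m.nQ p l j a x = dig 2 (s.qa (x / m.σ)) (x % m.σ) := by
    intro x hx
    rw [hnQ x, eq01_neg h2, ifz_zero]
    unfold ifz
    split_ifs <;> exact h.qa x hx
  by_cases h3 : j % 3 = 1
  · rw [if_pos h3]
    refine build m hp h _ s.qa s.ac s.au s.sa s.sl 1 m.G 1 (fun x hx => ?_) ⟨?_, by omega⟩
      ⟨?_, hG⟩ ⟨?_, by omega⟩ hQ hAc hAu hSa hSl h.q2
    · rw [hnR x]
      unfold Mach.zR Mach.addR Mach.lo Mach.ln
      rw [h3, ifz_pos one_ne_zero, Nat.sub_self, ifz_zero, if_neg (lt_irrefl _),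
        if_neg (lt_irrefl _)]
      by_cases h4 : m.cl (k + 1) ≤ x ∧ x < m.cl (k + 1) + m.wc
      · rw [rgn_pos h4, ifz_pos one_ne_zero, if_pos h4, ZMod.natCast_mod, Nat.cast_add,
          Nat.cast_mul, h.Rc hx]
        congr 1
        congr 1
        · by_cases hs : g = 0
          · rw [hs, ifz_zero, sgz, if_pos rfl, Nat.cast_one]
          · rw [ifz_pos hs, sgz, if_neg hs, Nat.cast_sub (by omega), ZMod.natCast_self]
            push_cast
            ring
        · refine FCAST.1 p _ _ _ _ _ fun j' hj' => ?_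
          exact vars_cast hf h le_rfl k (by omega) (by omega) j' hj'
      · rw [rgn_neg h4, ifz_zero, if_neg h4, h.Rc hx]
    · rw [hMd, h3, lt01_pos (by norm_num)]
    · rw [hNd, h3, lt01_pos (by norm_num), one_mul]
    · rw [hSg, h3, eq01_pos rfl]
  rw [if_neg h3]
  have h4 : j % 3 = 2 := by omega
  refine build m hp h _ s.qa s.ac s.au s.sa s.sl 0 0 0 (fun x hx => ?_) ⟨?_, by omega⟩
    ⟨?_, by omega⟩ ⟨?_, by omega⟩ hQ hAc hAu hSa hSl h.q2
  · rw [hnR x]
    unfold Mach.zR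
    rw [h4, ifz_pos two_ne_zero, ifz_pos (c := 2 - 1) (by norm_num)]
    exact sca_case h hx _ _ _ _ (invN_cast hp _)
  · rw [hMd, h4, lt01_neg (by norm_num)]
  · rw [hNd, h4, lt01_neg (by norm_num), zero_mul]
  · rw [hSg, h4, eq01_neg (by norm_num)]

theorem REL : Pool.Agent.Helper81.Tok3.REL_stmt := by
  intro m p hpr hok J K hf
  refine ⟨fun l hl j a s h => ?_, fun a s h => ?_⟩
  · rw [rel_iff] at h ⊢
    by_cases hm : l % (m.G + 2) = 0
    · have hop : m.op l j s = m.opE l (l / (m.G + 2)) j s := by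
        unfold Mach.op
        rw [if_pos hm]
      rw [hop]
      unfold Mach.opE
      by_cases hA : s.md (l + 1) = 2 ∧ s.nd (l + 1) < m.G
      · rw [if_pos hA]
        exact relY hok hf h hl hm hA
      rw [if_neg hA]
      by_cases hB : s.md (l + 1) = 2 ∧ s.nd (l + 1) = m.G ∧ j < 3 * (p - 1)
      · rw [if_pos hB]
        exact relZ hok hf h hl hm hB
      rw [if_neg hB]
      have hp := hf.h5
      have hJ : l + 1 < J := lt_of_le_of_lt hl hf.h2
      have e1 := h.md (l + 1) hJ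
      have e2 := h.nd (l + 1) hJ
      have hN : m.isN a l = 0 := by
        unfold Mach.isN
        rw [hm, lt01_neg (lt_irrefl 0), zero_mul]
      have hP : m.isP a l j = 0 := by
        unfold Mach.isP
        rw [hm, lt01_neg (lt_irrefl 0), zero_mul]
      have hY : m.isY a l = 0 := by
        unfold Mach.isY
        rw [e1, e2, eq01_pos hm, one_mul]
        by_cases h1 : s.md (l + 1) = 2
        · rw [lt01_neg fun h2 => hA ⟨h1, h2⟩, mul_zero]
        · rw [eq01_neg h1, zero_mul]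
      have hZ : m.isZ p a l j = 0 := by
        unfold Mach.isZ
        rw [e1, e2, eq01_pos hm, one_mul]
        by_cases h1 : s.md (l + 1) = 2
        · by_cases h2 : s.nd (l + 1) = m.G
          · rw [lt01_neg fun h3 => hB ⟨h1, h2, h3⟩, mul_zero]
          · rw [eq01_neg h2, mul_zero, zero_mul]
        · rw [eq01_neg h1, zero_mul, zero_mul]
      refine rel_same hf h hY hZ s.R 0 0 0 (fun k hk => ?_) ⟨?_, by omega⟩ ⟨?_, by omega⟩
        ⟨?_, by omega⟩
      · unfold Mach.nR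
        rw [hY, hZ, hN, ifz_zero, ifz_zero, zero_mul, ifz_zero, h.Rc hk]
      · unfold Mach.cMd
        rw [hY, hZ, hN, ifz_zero, ifz_zero, ifz_zero, hP, ifz_zero]
      · unfold Mach.cNd
        rw [hY, hZ, hN, ifz_zero, ifz_zero, ifz_zero, hP, ifz_zero]
      · unfold Mach.cSg
        rw [hY, hZ, hN, ifz_zero, ifz_zero, ifz_zero, hP, ifz_zero]
    · exact relN hf h hl hm
  · have hD := (rel_iff m J K a s).1 h
    have hp := hf.h5
    have hJ := hf.h2
    have hJ0 : 0 < J := by omega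
    have hσ := hok.hσ
    have e1 : a 1 = s.md 0 := by simpa using hD.md 0 hJ0
    have e3 : a 3 = s.sg 0 := by simpa using hD.sg 0 hJ0
    have hq0 : m.qN a 0 = s.qa 0 := hD.qN hok hf (Nat.zero_le K)
    have hbase : ∀ x, m.baseA p a x = (a x + eq01 (s.md 0) 1 * (eq01 (x % 9) 0 *
        rgn (m.cl 0) m.wc (x / 9)) * (ifz (s.sg 0) 1 (p - 1) *
          dig 2 (m.q0 + 2 ^ m.σ * m.M0 (s.qa 0)) (x / 9 - m.cl 0))) % p := by
      intro x
      unfold Mach.baseA
      rw [e1, e3, hq0]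
    have ht : ∀ x < 9 * J, trc (9 * J) (m.baseA p a) x = m.baseA p a x := fun x hx => if_pos hx
    have hsame : ∀ k < J, ∀ c, 0 < c → c < 9 → m.baseA p a (9 * k + c) = a (9 * k + c) := by
      intro k hk c hc hc7
      rw [hbase, eq01_neg (x := (9 * k + c) % 9) (by omega), zero_mul, mul_zero, zero_mul,
        add_zero, Nat.mod_eq_of_lt (hD.lt _ (by omega))]
    unfold Mach.op0
    rw [rel_iff]
    by_cases hA : s.md 0 = 1
    · rw [if_pos hA]
      refine ⟨fun x hx => ?_, fun k hk => ?_, fun k hk => ?_, fun k hk => ?_, fun k hk => ?_,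
        fun k hk => ?_, fun k hk => ?_, fun k hk => ?_, fun k hk => ?_, fun k hk => ?_, hD.q2⟩
      · rw [ht x hx]
        exact Nat.mod_lt _ (by omega)
      · rw [ht _ (by omega), hbase]
        have h1 : 9 * k % 9 = 0 := by omega
        have h2 : 9 * k / 9 = k := by omega
        rw [h1, h2, eq01_pos hA, eq01_pos rfl, one_mul, one_mul, ← ZMod.val_natCast]
        congr 1
        rw [Nat.cast_add, hD.Rc hk]
        unfold Mach.addR
        show _ = (if m.cl 0 ≤ k ∧ k < m.cl 0 + m.wc then s.R k + sgz p (s.sg 0) *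
          bitZ p (m.q0 + 2 ^ m.σ * m.M0 (s.qa 0)) (k - m.cl 0) else s.R k)
        by_cases hk2 : m.cl 0 ≤ k ∧ k < m.cl 0 + m.wc
        · rw [rgn_pos hk2, one_mul, if_pos hk2, Nat.cast_mul]
          congr 1
          congr 1
          by_cases hs : s.sg 0 = 0
          · rw [hs, ifz_zero, sgz, if_pos rfl, Nat.cast_one]
          · rw [ifz_pos hs, sgz, if_neg hs, Nat.cast_sub (by omega), ZMod.natCast_self]
            push_cast
            ring
        · rw [rgn_neg hk2, zero_mul, if_neg hk2, Nat.cast_zero, add_zero]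
      · rw [ht _ (by omega), hsame k hk 1 (by norm_num) (by norm_num), hD.md k hk]
      · rw [ht _ (by omega), hsame k hk 2 (by norm_num) (by norm_num), hD.nd k hk]
      · rw [ht _ (by omega), hsame k hk 3 (by norm_num) (by norm_num), hD.sg k hk]
      · rw [ht _ (by omega), hsame k hk 4 (by norm_num) (by norm_num), hD.qa k hk]
      · rw [ht _ (by omega), hsame k hk 5 (by norm_num) (by norm_num), hD.ac k hk]
      · rw [ht _ (by omega), hsame k hk 6 (by norm_num) (by norm_num), hD.au k hk]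
      · rw [ht _ (by omega), hsame k hk 7 (by norm_num) (by norm_num), hD.sa k hk]
      · rw [ht _ (by omega), hsame k hk 8 (by norm_num) (by norm_num), hD.sl k hk]
    · rw [if_neg hA]
      have hall : ∀ x < 9 * J, trc (9 * J) (m.baseA p a) x = a x := by
        intro x hx
        rw [ht x hx, hbase, eq01_neg hA, zero_mul, zero_mul, add_zero,
          Nat.mod_eq_of_lt (hD.lt x hx)]
      refine ⟨fun x hx => ?_, fun k hk => ?_, fun k hk => ?_, fun k hk => ?_, fun k hk => ?_,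
        fun k hk => ?_, fun k hk => ?_, fun k hk => ?_, fun k hk => ?_, fun k hk => ?_, hD.q2⟩
      · rw [hall x hx]
        exact hD.lt x hx
      · rw [hall _ (by omega), hD.R k hk]
      · rw [hall _ (by omega), hD.md k hk]
      · rw [hall _ (by omega), hD.nd k hk]
      · rw [hall _ (by omega), hD.sg k hk]
      · rw [hall _ (by omega), hD.qa k hk]
      · rw [hall _ (by omega), hD.ac k hk]
      · rw [hall _ (by omega), hD.au k hk]
      · rw [hall _ (by omega), hD.sa k hk]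
      · rw [hall _ (by omega), hD.sl k hk]

end Pool.Agent.Helper81.Tok3H85
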