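import Pool.Agent.Helper81.Tok3.TRUTH
import Pool.Agent.Helper19.Ram.FLAT
import Pool.Agent.Helper81.Tok3.INNER
import Pool.Agent.Helper81.Tok3.TRUTH1
import Pool.Agent.Helper81.Tok3.SAV
import Pool.Agent.Helper81.Tok3.ELEV
import Pool.Agent.Helper81.Tok3.NLEV
import Pool.Agent.Helper81.Tok3.PROC
import Pool.Agent.Helper81.Tok3.REL
import Pool.Agent.Helper81.Tok3.LSOP
import Pool.Agent.Helper81.Tok3.LSFN
import Pool.Agent.Helper81.Tok3.PARA
import Pool.Agent.Helper81.Tok3.PARB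

/-!
# All parts of the simulation of broadcast machines whose silent steps are free
-/

namespace Pool.Agent.Helper81.Tok3

theorem proc : PROC_stmt := Pool.Agent.Helper81.Tok3H16.PROC
  (Pool.Agent.Helper81.Tok3H13.ELEV Pool.Agent.Helper81.Tok3H27.INNER Pool.Agent.Helper81.Tok3H64.SAV)
  (Pool.Agent.Helper81.Tok3H86.NLEV Pool.Agent.Helper81.Tok3H27.LINE
    (TRUTH Pool.Agent.Helper81.Tok3H61.TRUTH1))
  Pool.Agent.Helper81.Tok3H16.AGREE

theorem parts : Parts where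
  FLAT := Pool.Agent.Helper19.Ram.FLAT
  REL := Pool.Agent.Helper81.Tok3H85.REL
  FINAL := Pool.Agent.Helper81.Tok3H16.FINAL proc
  LSOP := Pool.Agent.Helper81.Tok3H80.LSOP Pool.Agent.Helper81.Tok3H75.LSFN
  PARA := Pool.Agent.Helper81.Tok3H56.PARA
  PARB := Pool.Agent.Helper81.Tok3H58.PARB

end Pool.Agent.Helper81.Tok3
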