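import Pool.Agent.Helper81.Tok3.SimS
import Pool.Agent.Helper81.Tok3.Final

/-!
# Broadcast machines: the simulation theorem
-/

namespace Pool.Agent.Helper81.Tok3

/-- The simulation theorem for macro runs of broadcast machines. -/
noncomputable def theSim : Sim where
  sim n m := m.sim (pH n m.h) (JH n m.h) (gH n m.h)
  ls hx hM hpar := ls_simT parts hx hM hpar
  eq m _ hok hpar := by
    rw [simT_eq parts hok hpar, m.conf_eq]
  nv _ _ hok hpar := nv_le parts hok hpar
  sv _ _ hok hpar := sv_le parts hok hpar

end Pool.Agent.Helper81.Tok3
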