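import Pool.Agent.Helper28.Ram.Alg

/-!
# Broadcast machines whose silent steps are free: the space-efficient simulation

A broadcast machine is a machine on numbers whose state (the event) has `σ` bits and whose memory
cells (processors) have `a` bits, where `a` may be much larger than `σ`. In a step the event `q`
reads the content `v` of the cell `A q` and becomes the next event `f = N q v`. If `Q f` is not zero the
step is silent, and nothing else happens. Otherwise the step is a broadcast: every cell `x` changes
its content `c` to `W x f c`. A macro step consists of at most `2 ^ h` silent steps (up to the first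
step which is not silent) and of one more step, which is always treated as a broadcast. Only the
macro steps are counted. (In `Pool.Agent.Helper81.Tok2` only the cell `A q` changes.)

Time is divided into blocks of `G * b` macro steps, a block into `G` intervals of `b` macro steps.
Every macro step has two events: the event after the silent steps, and the event after the macro
step. The events are stored in registers, which are elements of `ZMod p`: the register
`m < G * (σ * (2 * b))` belongs to the bit `m % σ` of the event number `m / σ + 1` of a block. Two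
more groups of `σ + a` registers are used for the event at the start of a block together with the
content of one cell at this time. The silent steps are checked by repeated squaring of the matrix
of the silent step (this is Savitch's method).
-/

namespace Pool.Agent.Helper81.Tok3

open Pool.Agent.Helper65.LinSpace Pool.Agent.Helper28.Ram Finset
open Pool.Agent.Helper28.Ram.Mach (sgz)

/-- A broadcast machine on numbers, and the parameters of the simulation. -/
structure Mach where
  σ : ℕ
  a : ℕ
  b : ℕ
  G : ℕ
  h : ℕ
  A : ℕ → ℕ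
  N : ℕ → ℕ → ℕ
  Q : ℕ → ℕ
  W : ℕ → ℕ → ℕ → ℕ
  q0 : ℕ
  M0 : ℕ → ℕ

/-- Events have `σ` bits, contents have `a` bits. -/
structure Mach.Ok (m : Mach) : Prop where
  hσ : 0 < m.σ
  hb : 0 < m.b
  hA : ∀ q, m.A q < 2 ^ m.σ
  hN : ∀ q v, m.N q v < 2 ^ m.σ
  hW : ∀ x f c, m.W x f c < 2 ^ m.a
  hq0 : m.q0 < 2 ^ m.σ
  hM0 : ∀ x, m.M0 x < 2 ^ m.a

namespace Mach

variable (m : Mach)

/-- The silent step of the event `q` for the content `v`; if the step is not silent the event does
not move. -/
def slt (q v : ℕ) : ℕ := ifz (m.Q (m.N q v)) q (m.N q v)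

/-- The event after `n` silent steps with the memory `M`. -/
def run (M : ℕ → ℕ) (n q : ℕ) : ℕ := (fun q => m.slt q (M (m.A q)))^[n] q

/-- The configuration of the machine after `t` macro steps. -/
def conf : ℕ → ℕ × (ℕ → ℕ)
  | 0 => (m.q0, m.M0)
  | t + 1 =>
    (m.N (m.run (conf t).2 (2 ^ m.h) (conf t).1)
      ((conf t).2 (m.A (m.run (conf t).2 (2 ^ m.h) (conf t).1))),
    fun x => m.W x (m.N (m.run (conf t).2 (2 ^ m.h) (conf t).1)
      ((conf t).2 (m.A (m.run (conf t).2 (2 ^ m.h) (conf t).1)))) ((conf t).2 x))

/-- The number of registers of an interval. -/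
def wn : ℕ := m.σ * (2 * m.b)

/-- The number of registers of a content. -/
def wc : ℕ := m.σ + m.a

/-- The number of variables of the node `i`: the registers of the intervals before `i`, and the
registers of a content. -/
def nv (i : ℕ) : ℕ := i * m.wn + m.wc

/-! ### Boolean functions

A number `z` codes the events `1, …, i * (2 * b)` of the block (in base `2 ^ σ`), then the event at
the start of the block, then the content of a cell at the start of the block. A transcript `y` of
the interval `i` consists of the `2 * b + 1` events `i * (2 * b), …, i * (2 * b) + 2 * b` of the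
block. -/

/-- The event at the start of the block. -/
def s0 (i z : ℕ) : ℕ := z / 2 ^ (i * m.wn) % 2 ^ m.σ

/-- The content at the start of the block. -/
def c0 (i z : ℕ) : ℕ := z / 2 ^ (i * m.wn) / 2 ^ m.σ

/-- The event number `t` of the block, as coded by `z`. -/
def ez (i z t : ℕ) : ℕ := ifz t (m.s0 i z) (dig (2 ^ m.σ) z (t - 1))

/-- The event number `t` of the block, as coded by `z` (up to the start of the interval `i`) and the
transcript `y` (after the start of the interval `i`). -/
def ev (i y z t : ℕ) : ℕ :=
  ifz (le01 t (i * (2 * m.b))) (dig (2 ^ m.σ) y (t - i * (2 * m.b))) (m.ez i z t)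

/-- The content of the cell `x` after `n` macro steps of the block. -/
def cont (i y z x n : ℕ) : ℕ :=
  nrec (m.c0 i z) (fun t c => m.W x (m.ev i y z (2 * t + 2)) c) n

/-- `1` if the silent step of the event `e` after `r` macro steps of the transcript `y` leads to the
event `f`, the content coded by `z` being the content at the start of the block of the cell which is
read by `e`. -/
def chk0 (i y r e f z : ℕ) : ℕ := eq01 (m.slt e (m.cont i y z (m.A e) (i * m.b + r))) f

/-- `1` if the last step of the macro step `r` of the transcript `y` is right: if the content coded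
by `z` is the content at the start of the block of the cell which is read in this step. For `r = 0`
the first event of the transcript is compared, too. -/
def chk1 (i y r z : ℕ) : ℕ :=
  ifz r (eq01 (dig (2 ^ m.σ) y 0) (m.ez i z (i * (2 * m.b)))) 1 *
    eq01 (dig (2 ^ m.σ) y (2 * r + 2))
      (m.N (dig (2 ^ m.σ) y (2 * r + 1))
        (m.cont i y z (m.A (dig (2 ^ m.σ) y (2 * r + 1))) (i * m.b + r)))

/-- The event at the end of the block, and the content of the cell `x` at this time. -/
def top (x z : ℕ) : ℕ := m.ez m.G z (m.G * (2 * m.b)) + 2 ^ m.σ * m.cont m.G 0 z x (m.G * m.b)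

/-! ### The leaves

For a macro step of a transcript there are `sv = (2 ^ (σ + 1)) ^ h` leaves `w` for the silent steps,
and the leaf `w = sv` for the last step. The digit `u < h` of `w` in the base `2 ^ (σ + 1)` is
`2 * g + s`: `g` is the event in the middle of the `2 ^ (u + 1)` silent steps, `s = 0` stands for
the first half and `s = 1` for the second half. -/

/-- The number of leaves of the silent steps. -/
def sv : ℕ := (2 ^ (m.σ + 1)) ^ m.h

/-- The middle of the level `u` of the leaf `w`. -/
def gp (w u : ℕ) : ℕ := dig (2 ^ (m.σ + 1)) w u / 2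

/-- The side of the level `u` of the leaf `w`. -/
def sd (w u : ℕ) : ℕ := dig (2 ^ (m.σ + 1)) w u % 2

/-- The left end point, starting with `e`, after going down `t` levels to the leaf `w`. -/
def pe (e w t : ℕ) : ℕ := nrec e (fun t c => ifz (m.sd w (m.h - 1 - t)) c (m.gp w (m.h - 1 - t))) t

/-- The right end point, starting with `f`, after going down `t` levels to the leaf `w`. -/
def pf (f w t : ℕ) : ℕ := nrec f (fun t c => ifz (m.sd w (m.h - 1 - t)) (m.gp w (m.h - 1 - t)) c) t

/-- The left event of the leaf `w` of the macro step `r`. -/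
def le (y r w : ℕ) : ℕ := m.pe (dig (2 ^ m.σ) y (2 * r)) w m.h

/-- The right event of the leaf `w` of the macro step `r`. -/
def lf (y r w : ℕ) : ℕ := m.pf (dig (2 ^ m.σ) y (2 * r + 1)) w m.h

/-- The number of leaves of a transcript. -/
def nl : ℕ := m.b * (m.sv + 1)

/-- The cell which is read by the leaf `v` of the transcript `y`. -/
def qy (y v : ℕ) : ℕ :=
  m.A (ifz (eq01 (v % (m.sv + 1)) m.sv) (m.le y (v / (m.sv + 1)) (v % (m.sv + 1)))
    (dig (2 ^ m.σ) y (2 * (v / (m.sv + 1)) + 1)))

/-- The Boolean function of the leaf `v` of the transcript `y`. -/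
def bf (i y v z : ℕ) : ℕ :=
  ifz (eq01 (v % (m.sv + 1)) m.sv)
    (m.chk0 i y (v / (m.sv + 1)) (m.le y (v / (m.sv + 1)) (v % (m.sv + 1)))
      (m.lf y (v / (m.sv + 1)) (v % (m.sv + 1))) z)
    (m.chk1 i y (v / (m.sv + 1)) z)

/-- `1` if the value of the leaf `w` is used at the level `u`: if all levels below are finished. -/
def rch (w u : ℕ) : ℕ := eq01 (w % (2 ^ (m.σ + 1)) ^ u) ((2 ^ (m.σ + 1)) ^ u - 1)

/-! ### Polynomials -/

section

variable (p : ℕ)

/-- The variables of the node `i`: the registers before the interval `i`, then the cells `D`. -/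
def vars (i : ℕ) (X D : ℕ → ZMod p) (j : ℕ) : ZMod p :=
  if j < i * m.wn then X j else D (j - i * m.wn)

/-- The event at the start of the block `k` and the content of the cell `x` at this time. -/
def tn (k x : ℕ) : ℕ :=
  (m.conf (k * (m.G * m.b))).1 + 2 ^ m.σ * (m.conf (k * (m.G * m.b))).2 x

/-- The bits of `tn`. -/
def T (k x o : ℕ) : ZMod p := bitZ p (m.tn k x) o

/-- The power `2 ^ u` of the matrix of the silent step after `r` macro steps of the transcript `y`.
-/
def F (k i y r : ℕ) (X : ℕ → ZMod p) : ℕ → ℕ → ℕ → ZMod p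
  | 0, e, f => fhat p (m.nv i) (m.chk0 i y r e f) 0 (m.vars p i X (m.T p k (m.A e)))
  | u + 1, e, f => ∑ g ∈ range (2 ^ m.σ), F k i y r X u e g * F k i y r X u g f

/-- The factor of the macro step `r` of the transcript `y`. -/
def fc (k i y r : ℕ) (X : ℕ → ZMod p) : ZMod p :=
  m.F p k i y r X m.h (dig (2 ^ m.σ) y (2 * r)) (dig (2 ^ m.σ) y (2 * r + 1)) *
    fhat p (m.nv i) (m.chk1 i y r) 0
      (m.vars p i X (m.T p k (m.A (dig (2 ^ m.σ) y (2 * r + 1)))))

/-- The polynomials of the node `i` of the block `k` for the query `x`. -/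
def P (k i x : ℕ) (X : ℕ → ZMod p) (o : ℕ) : ZMod p :=
  if i < m.G then
    ∑ y ∈ range (2 ^ (m.σ * (2 * m.b + 1))),
      (∏ r ∈ range m.b, m.fc p k i y r X) * bitZ p (y / 2 ^ m.σ) o
  else fhat p (m.nv m.G) (m.top x) o (m.vars p m.G X (m.T p k x))

/-- The event number `t` of the block `k`. -/
def E (k t : ℕ) : ℕ :=
  if t % 2 = 0 then (m.conf (k * (m.G * m.b) + t / 2)).1
  else m.run (m.conf (k * (m.G * m.b) + t / 2)).2 (2 ^ m.h) (m.conf (k * (m.G * m.b) + t / 2)).1

/-- The value of the node `i` of the block `k` for the query `x`, as a number. -/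
def vn (k i x : ℕ) : ℕ :=
  if i < m.G then tab (2 ^ m.σ) (2 * m.b) fun r => m.E k (i * (2 * m.b) + r + 1)
  else m.tn (k + 1) x

/-- The bits of the value of the node `i`. -/
def V (k i x o : ℕ) : ZMod p := bitZ p (m.vn k i x) o

/-! ### Folding the values of the leaves -/

/-- The value `c` of the leaf `w`, and what becomes of it at the level `u`, the sums and the left
factors of the levels being `sa`, `sl`. -/
def cv (w : ℕ) (c : ZMod p) (sa sl : ℕ → ZMod p) : ℕ → ZMod p
  | 0 => c
  | u + 1 => (if m.gp w u = 0 then 0 else sa u) + sl u * cv w c sa sl u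

/-- The new left factor of the level `u`. -/
def nsl (w : ℕ) (c : ZMod p) (sa sl : ℕ → ZMod p) (u : ℕ) : ZMod p :=
  if w < m.sv ∧ m.rch w u = 1 ∧ m.sd w u = 0 then m.cv p w c sa sl u else sl u

/-- The new sum of the level `u`. -/
def nsa (w : ℕ) (c : ZMod p) (sa sl : ℕ → ZMod p) (u : ℕ) : ZMod p :=
  if w < m.sv ∧ m.rch w u = 1 ∧ m.sd w u = 1 then m.cv p w c sa sl (u + 1) else sa u

/-- The new product. -/
def nac (w : ℕ) (c : ZMod p) (sa sl : ℕ → ZMod p) (ac : ZMod p) : ZMod p :=
  if w = m.sv then ac * c else if w + 1 = m.sv then ac * m.cv p w c sa sl m.h else ac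

/-- The value of the leaf `v` of the transcript `y`. -/
def lv (k i y : ℕ) (X : ℕ → ZMod p) (v : ℕ) : ZMod p :=
  fhat p (m.nv i) (m.bf i y v) 0 (m.vars p i X (m.T p k (m.qy y v)))

/-- Fold the value `c` of the leaf `w` into the product, the sums and the left factors. -/
def fstep (w : ℕ) (c : ZMod p) (t : ZMod p × (ℕ → ZMod p) × (ℕ → ZMod p)) :
    ZMod p × (ℕ → ZMod p) × (ℕ → ZMod p) :=
  (m.nac p w c t.2.1 t.2.2 t.1, m.nsa p w c t.2.1 t.2.2, m.nsl p w c t.2.1 t.2.2)

/-! ### The procedures -/

/-- The first register of the content at the start of the block `k`. -/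
def cl (k : ℕ) : ℕ := m.G * m.wn + k % 2 * m.wc

/-- The first register of the output of the node `i` of the block `k`. -/
def lo (k i : ℕ) : ℕ := if i < m.G then i * m.wn else m.cl (k + 1)

/-- The number of registers of the output of the node `i`. -/
def ln (i : ℕ) : ℕ := if i < m.G then m.wn else m.wc

/-- The states of the simulation: registers; mode, node and sign of each level; query and
accumulators of each block, and for each level of squaring of each block a sum and a left factor. -/
structure St where
  R : ℕ → ZMod p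
  md : ℕ → ℕ
  nd : ℕ → ℕ
  sg : ℕ → ℕ
  qa : ℕ → ℕ
  ac : ℕ → ZMod p
  au : ℕ → ZMod p
  sa : ℕ → ℕ → ZMod p
  sl : ℕ → ℕ → ZMod p

variable {p} in
/-- Set mode, node and sign of the level `l`. -/
def St.call (s : St p) (l c i g : ℕ) : St p :=
  { s with
    md := Function.update s.md l c
    nd := Function.update s.nd l i
    sg := Function.update s.sg l g }

variable {p} in
/-- Add `c` to the `n` registers from `l` on. -/
def addR (l n : ℕ) (c : ℕ → ZMod p) (R : ℕ → ZMod p) : ℕ → ZMod p :=
  fun j => if l ≤ j ∧ j < l + n then R j + c (j - l) else R j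

variable {p} in
/-- Multiply the `n` registers from `l` on by `c`. -/
def scaR (l n : ℕ) (c : ZMod p) (R : ℕ → ZMod p) : ℕ → ZMod p :=
  fun j => if l ≤ j ∧ j < l + n then c * R j else R j

variable {p}

/-- The level `0`: the query at the start of the computation. -/
def op0 (s : St p) : St p :=
  if s.md 0 = 1 then
    { s with R := addR (m.cl 0) m.wc (fun o => sgz p (s.sg 0) *
        bitZ p (m.q0 + 2 ^ m.σ * m.M0 (s.qa 0)) o) s.R }
  else s

/-- Fold the value `c` of the leaf `w` into the accumulators of the block `k`. -/
def fold (k w : ℕ) (c : ZMod p) (s : St p) : St p :=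
  { s with
    ac := Function.update s.ac k (m.nac p w c (s.sa k) (s.sl k) (s.ac k))
    sa := Function.update s.sa k (m.nsa p w c (s.sa k) (s.sl k))
    sl := Function.update s.sl k (m.nsl p w c (s.sa k) (s.sl k)) }

variable (p) in
/-- The number of operations for one transcript. -/
def ny : ℕ := 3 * (m.nl * (p - 1)) + 1

/-- The evaluation of the polynomials of the node `i < G`: the operation number `e` for the
transcript `y` in the level `l + 1`, which belongs to the block `k`. The operations come in triples:
load the content, add the value of the polynomial, remove the content. There are `p - 1` triples for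
each leaf; at the end of the last one the value of the leaf is folded into the accumulators. The
last operation changes the registers of the node. -/
def opY (l k y e : ℕ) (s : St p) : St p :=
  if e = 3 * (m.nl * (p - 1)) then
    ({ s with
        R := addR (m.lo k (s.nd (l + 1))) (m.ln (s.nd (l + 1)))
          (fun o => -(sgz p (s.sg (l + 1)) * (s.ac k * bitZ p (y / 2 ^ m.σ) o))) s.R } :
      St p).call l 0 0 0
  else if e % 3 = 0 then
    ({ s with
        R := scaR (m.cl k) m.wc ((e / 3 % (p - 1) + 1 : ℕ) : ZMod p) s.R
        ac := Function.update s.ac k (if e = 0 then 1 else s.ac k)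
        au := Function.update s.au k (if e / 3 % (p - 1) = 0 then 0 else s.au k)
        qa := Function.update s.qa k (m.qy y (e / 3 / (p - 1))) } :
      St p).call l 1 m.G 0
  else if e % 3 = 1 then
    ({ s with
        au := Function.update s.au k (s.au k + fhat p (m.nv (s.nd (l + 1)))
          (m.bf (s.nd (l + 1)) y (e / 3 / (p - 1))) 0
          (m.vars p (s.nd (l + 1)) s.R fun o => s.R (m.cl k + o))) } :
      St p).call l 1 m.G 1
  else if e / 3 % (p - 1) = p - 2 then
    (m.fold k (e / 3 / (p - 1) % (m.sv + 1)) (-s.au k)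
      { s with R := scaR (m.cl k) m.wc ((e / 3 % (p - 1) + 1 : ℕ) : ZMod p)⁻¹ s.R }).call l 0 0 0
  else
    ({ s with R := scaR (m.cl k) m.wc ((e / 3 % (p - 1) + 1 : ℕ) : ZMod p)⁻¹ s.R } :
      St p).call l 0 0 0

/-- The evaluation of the polynomials of the node `G`: the operation number `e` in the level
`l + 1`, which belongs to the block `k`. -/
def opZ (l k e : ℕ) (s : St p) : St p :=
  if e % 3 = 0 then
    ({ s with
        R := scaR (m.cl k) m.wc ((e / 3 + 1 : ℕ) : ZMod p) s.R
        qa := Function.update s.qa k (s.qa (k + 1)) } : St p).call l 1 m.G 0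
  else if e % 3 = 1 then
    ({ s with
        R := addR (m.lo k m.G) (m.ln m.G) (fun o => sgz p (s.sg (l + 1)) *
          fhat p (m.nv m.G) (m.top (s.qa (k + 1))) o
            (m.vars p m.G s.R fun o => s.R (m.cl k + o))) s.R } :
      St p).call l 1 m.G 1
  else
    ({ s with R := scaR (m.cl k) m.wc ((e / 3 + 1 : ℕ) : ZMod p)⁻¹ s.R } : St p).call l 0 0 0

/-- The evaluation of the polynomials: the operation `j` of the level `l + 1`, which belongs to the
block `k`. -/
def opE (l k j : ℕ) (s : St p) : St p :=
  if s.md (l + 1) = 2 ∧ s.nd (l + 1) < m.G then m.opY l k (j / m.ny p) (j % m.ny p) s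
  else if s.md (l + 1) = 2 ∧ s.nd (l + 1) = m.G ∧ j < 3 * (p - 1) then m.opZ l k j s
  else s.call l 0 0 0

/-- The evaluation of the nodes before `h`: the operation `j` of the level `l + 1`. -/
def opN (l h j : ℕ) (s : St p) : St p :=
  if s.md (l + 1) = 1 ∧ s.nd (l + 1) < h then
    if j % (2 * m.G + 3) = 0 then
      ({ s with R := scaR 0 (s.nd (l + 1) * m.wn) ((j / (2 * m.G + 3) + 1 : ℕ) : ZMod p) s.R } :
        St p).call l 0 0 0
    else if j % (2 * m.G + 3) ≤ m.G then
      if j % (2 * m.G + 3) - 1 < s.nd (l + 1) then s.call l 1 (j % (2 * m.G + 3) - 1) 0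
      else s.call l 0 0 0
    else if j % (2 * m.G + 3) = m.G + 1 then s.call l 2 (s.nd (l + 1)) (s.sg (l + 1))
    else if j % (2 * m.G + 3) ≤ 2 * m.G + 1 then
      if j % (2 * m.G + 3) - (m.G + 2) < s.nd (l + 1) then
        s.call l 1 (j % (2 * m.G + 3) - (m.G + 2)) 1
      else s.call l 0 0 0
    else
      ({ s with R := scaR 0 (s.nd (l + 1) * m.wn) ((j / (2 * m.G + 3) + 1 : ℕ) : ZMod p)⁻¹ s.R } :
        St p).call l 0 0 0
  else if s.md (l + 1) = 2 ∧ s.nd (l + 1) ≤ m.G ∧ j = 0 then
    s.call l 2 (s.nd (l + 1)) (s.sg (l + 1))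
  else s.call l 0 0 0

/-- The operation `j` of the level `l + 1`. -/
def op (l j : ℕ) (s : St p) : St p :=
  if l % (m.G + 2) = 0 then m.opE l (l / (m.G + 2)) j s else m.opN l (l % (m.G + 2)) j s

variable (p) in
/-- The number of operations of the level `l + 1`. -/
def cnt (l : ℕ) : ℕ :=
  ifz (l % (m.G + 2)) (2 ^ (m.σ * (2 * m.b + 1)) * m.ny p) ((p - 1) * (2 * m.G + 3))

/-- The procedure of the level `l`. -/
def proc : ℕ → St p → St p
  | 0, s => m.op0 s
  | l + 1, s => iter (fun j s => proc l (m.op l j s)) (m.cnt p l) s

variable (p) in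
/-- The state with an active call of the node `G` in the level `l`, and zeros elsewhere. -/
def st0 (l : ℕ) : St p :=
  ({ R := fun _ => 0, md := fun _ => 0, nd := fun _ => 0, sg := fun _ => 0, qa := fun _ => 0,
     ac := fun _ => 0, au := fun _ => 0, sa := fun _ _ => 0, sl := fun _ _ => 0 } :
    St p).call l 1 m.G 0

/-- What the procedure of the level `l` does. -/
def ideal : ℕ → St p → St p
  | 0, s =>
    if s.md 0 = 1 then
      { s with R := addR (m.cl 0) m.wc (fun o => sgz p (s.sg 0) * m.T p 0 (s.qa 0) o) s.R }
    else s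
  | l + 1, s =>
    if s.md (l + 1) = 2 ∧ s.nd (l + 1) ≤ m.G then
      { s with
        R := addR (m.lo (l / (m.G + 2)) (s.nd (l + 1))) (m.ln (s.nd (l + 1)))
          (fun o => -(sgz p (s.sg (l + 1)) *
            m.P p (l / (m.G + 2)) (s.nd (l + 1)) (s.qa (l / (m.G + 2) + 1)) s.R o)) s.R }
    else if s.md (l + 1) = 1 ∧ s.nd (l + 1) < l % (m.G + 2) then
      { s with
        R := addR (m.lo (l / (m.G + 2)) (s.nd (l + 1))) (m.ln (s.nd (l + 1)))
          (fun o => sgz p (s.sg (l + 1)) *
            m.V p (l / (m.G + 2)) (s.nd (l + 1)) (s.qa (l / (m.G + 2) + 1)) o) s.R }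
    else s

/-- The states agree in all which the procedure of the level `l` does not use as its work space. -/
def Agree (l : ℕ) (s t : St p) : Prop :=
  s.R = t.R ∧ (∀ k, l ≤ k → s.md k = t.md k ∧ s.nd k = t.nd k ∧ s.sg k = t.sg k) ∧
    ∀ k, l ≤ k * (m.G + 2) → s.qa k = t.qa k ∧ s.ac k = t.ac k ∧ s.au k = t.au k ∧
      s.sa k = t.sa k ∧ s.sl k = t.sl k

end

end Mach

end Pool.Agent.Helper81.Tok3
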