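import Pool.Agent.Helper81.Tok3.Goals
import Pool.Agent.Helper69.Ram.PAR

/-!
# Packet PARB (helper81, TOKEN2): arithmetic of the parameters
-/

namespace Pool.Agent.Helper81.Tok3H58

open Pool.Agent.Helper65.LinSpace Pool.Agent.Helper78.Mpc Pool.Agent.Helper28.Ram
open Pool.Agent.Helper81.Tok3 Finset

theorem prod_cnt (m : Pool.Agent.Helper81.Tok3.Mach) (p K : ℕ) :
    ∏ l ∈ range (K * (m.G + 2)), m.cnt p l =
    (2 ^ (m.σ * (2 * m.b + 1)) * m.ny p * ((p - 1) * (2 * m.G + 3)) ^ (m.G + 1)) ^ K := by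
  induction K with
  | zero => simp
  | succ K ih =>
    rw [add_mul, one_mul, prod_range_add, ih, pow_succ]
    congr 1
    rw [show m.G + 2 = (m.G + 1) + 1 by ring, prod_range_succ', mul_comm]
    congr 1
    · unfold Pool.Agent.Helper81.Tok3.Mach.cnt
      simp [ifz]
    · refine (prod_congr rfl (g := fun _ => (p - 1) * (2 * m.G + 3)) ?_).trans
        (by rw [prod_const, card_range, pow_succ])
      intro l hl
      have hl' := mem_range.1 hl
      unfold Pool.Agent.Helper81.Tok3.Mach.cnt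
      have e : (K * (m.G + 1 + 1) + (l + 1)) % (m.G + 2) = l + 1 := by
        rw [show m.G + 1 + 1 = m.G + 2 by ring, mul_comm, Nat.mul_add_mod]
        exact Nat.mod_eq_of_lt (by omega)
      rw [e]
      simp [ifz]

theorem PARB : PARB_stmt := by
  intro x m hok hpar
  obtain ⟨hσ, hh, hG, hb, -⟩ := hpar
  have hb0 := hok.hb
  have hσ0 := hok.hσ
  have key : ∀ t : ℕ, t ≤ 20000 * (Nat.log 2 x + 1) → 2 ^ t ≤ CH x := by
    intro t ht
    refine (Nat.pow_le_pow_right (by norm_num) ht).trans ((two_pow_log_le x 20000).trans ?_)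
    exact Nat.pow_le_pow_right (by omega) (by norm_num)
  generalize Nat.log 2 x = n at *
  obtain ⟨L, hL⟩ : ∃ L, L = ll n + m.h := ⟨_, rfl⟩
  obtain ⟨g, hgdef⟩ : ∃ g, g = gH n m.h := ⟨_, rfl⟩
  obtain ⟨p, hpdef⟩ : ∃ p, p = pH n m.h := ⟨_, rfl⟩
  have hJ : JH n m.h = 8 * ((g + 1) * (g + 1)) := by
    rw [hgdef]
    rfl
  rw [← hgdef] at hσ hh hG hb ⊢
  rw [← hpdef, hJ]
  have hll := ll_pos n
  have hlln := ll_le n
  have hpow := lt_two_pow_ll n
  have hL1 : 1 ≤ L := by omega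
  have hgs : g = Nat.sqrt (n / L) + 1 := by
    rw [hgdef, hL]
    rfl
  have hg1 : 1 ≤ g := by omega
  have hgn : g ≤ n + 1 := by
    have h1 : Nat.sqrt (n / L) ≤ n / L := Nat.sqrt_le_self _
    have h2 : n / L ≤ n := Nat.div_le_self _ _
    omega
  have hsq : (g + 1) * (g + 1) ≤ 2 * (n / L) + 8 := by
    have h1 : Nat.sqrt (n / L) * Nat.sqrt (n / L) ≤ n / L := Nat.sqrt_le _
    rw [hgs]
    generalize Nat.sqrt (n / L) = s at *
    have h9 : 4 * s ≤ s * s + 4 := by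
      zify
      nlinarith [sq_nonneg ((s : ℤ) - 2)]
    calc (s + 1 + 1) * (s + 1 + 1) = s * s + 4 * s + 4 := by ring
      _ ≤ _ := by omega
  have hhg : m.h ≤ g := by
    have h1 : 1 * m.h ≤ (m.σ + 1) * m.h := Nat.mul_le_mul_right _ (by omega)
    omega
  have hLn : L ≤ 2 * (n + 1) := by omega
  have hW := Nat.div_mul_le_self n L
  have hsq2 : (g + 1) * (g + 1) * L ≤ 18 * (n + 1) := by
    calc (g + 1) * (g + 1) * L ≤ (2 * (n / L) + 8) * L := Nat.mul_le_mul_right _ hsq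
      _ = 2 * (n / L * L) + 8 * L := by ring
      _ ≤ _ := by omega
  have hspec : p.Prime ∧ (n + 2) ^ 4 * 2 ^ m.h < p ∧ p ≤ 2 * ((n + 2) ^ 4 * 2 ^ m.h) := by
    rw [hpdef]
    exact nextPrime_spec (by positivity)
  have hp2 := hspec.1.two_le
  have hp : p ≤ 2 ^ (9 * L) := by
    have h3 : n + 2 ≤ 2 ^ (ll n + 1) := by
      rw [pow_succ]
      omega
    calc p ≤ 2 * ((n + 2) ^ 4 * 2 ^ m.h) := hspec.2.2
      _ ≤ 2 * ((2 ^ (ll n + 1)) ^ 4 * 2 ^ m.h) :=
        Nat.mul_le_mul_left _ (Nat.mul_le_mul_right _ (Nat.pow_le_pow_left h3 4))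
      _ = 2 ^ (4 * ll n + 5 + m.h) := by
        rw [← pow_mul, ← pow_add, ← pow_succ']
        congr 1
        ring
      _ ≤ _ := Nat.pow_le_pow_right (by norm_num) (by omega)
  refine ⟨?_, ?_⟩
  · refine (Nat.pow_le_pow_left hp _).trans ?_
    rw [← pow_mul]
    apply key
    calc 9 * L * (9 * (8 * ((g + 1) * (g + 1)))) = 648 * ((g + 1) * (g + 1) * L) := by ring
      _ ≤ 20000 * (n + 1) := by omega
  · have h2 : m.σ * m.b ≤ g := by
      rw [hb]
      exact Nat.mul_div_le _ _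
    have h3 : m.b ≤ g := by
      rw [hb]
      exact Nat.div_le_self _ _
    have hprod := prod_cnt m p g
    rw [hprod, hG]
    have hgL : g ≤ 2 ^ L := by
      have h4 : 2 ^ ll n ≤ 2 ^ L := Nat.pow_le_pow_right (by norm_num) (by omega)
      omega
    have hny : m.ny p ≤ 2 ^ (13 * L + g) := by
      unfold Pool.Agent.Helper81.Tok3.Mach.ny Pool.Agent.Helper81.Tok3.Mach.nl
        Pool.Agent.Helper81.Tok3.Mach.sv
      rw [← pow_mul]
      have h5 : 2 ^ ((m.σ + 1) * m.h) ≤ 2 ^ g := Nat.pow_le_pow_right (by norm_num) hh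
      have h6 : m.b * (2 ^ ((m.σ + 1) * m.h) + 1) ≤ 2 ^ L * 2 ^ (g + 1) := by
        refine Nat.mul_le_mul (h3.trans hgL) ?_
        rw [pow_succ]
        have : 1 ≤ 2 ^ g := Nat.one_le_two_pow
        omega
      have h7 : m.b * (2 ^ ((m.σ + 1) * m.h) + 1) * (p - 1) ≤
          2 ^ L * 2 ^ (g + 1) * 2 ^ (9 * L) :=
        Nat.mul_le_mul h6 ((Nat.sub_le _ _).trans hp)
      have h8 : 1 ≤ m.b * (2 ^ ((m.σ + 1) * m.h) + 1) * (p - 1) :=
        Nat.mul_pos (Nat.mul_pos hb0 (by positivity)) (by omega)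
      calc 3 * (m.b * (2 ^ ((m.σ + 1) * m.h) + 1) * (p - 1)) + 1
          ≤ 4 * (m.b * (2 ^ ((m.σ + 1) * m.h) + 1) * (p - 1)) := by omega
        _ ≤ 4 * (2 ^ L * 2 ^ (g + 1) * 2 ^ (9 * L)) := Nat.mul_le_mul_left _ h7
        _ = 2 ^ (10 * L + g + 3) := by
            rw [show (4 : ℕ) = 2 ^ 2 by norm_num, ← pow_add, ← pow_add, ← pow_add]
            congr 1
            ring
        _ ≤ _ := Nat.pow_le_pow_right (by norm_num) (by omega)
    have hA : 2 ^ (m.σ * (2 * m.b + 1)) * m.ny p ≤ 2 ^ (4 * g + 13 * L) := by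
      have e : m.σ * (2 * m.b + 1) = 2 * (m.σ * m.b) + m.σ := by ring
      have h4 : m.σ * (2 * m.b + 1) ≤ 3 * g := by omega
      have e2 : 4 * g + 13 * L = 3 * g + (13 * L + g) := by ring
      rw [e2, pow_add]
      exact Nat.mul_le_mul (Nat.pow_le_pow_right (by norm_num) h4) hny
    have hB : (p - 1) * (2 * g + 3) ≤ 2 ^ (13 * L) := by
      have h4 : 2 * g + 3 ≤ 2 ^ (L + 3) := by
        rw [pow_add]
        omega
      calc (p - 1) * (2 * g + 3) ≤ 2 ^ (9 * L) * 2 ^ (L + 3) :=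
            Nat.mul_le_mul ((Nat.sub_le _ _).trans hp) h4
        _ = 2 ^ (10 * L + 3) := by
            rw [← pow_add]
            congr 1
            ring
        _ ≤ _ := Nat.pow_le_pow_right (by norm_num) (by omega)
    have hC : 2 ^ (m.σ * (2 * m.b + 1)) * m.ny p *
        ((p - 1) * (2 * g + 3)) ^ (g + 1) ≤
        2 ^ (4 * g + 13 * L + 13 * L * (g + 1)) := by
      refine (Nat.mul_le_mul hA (Nat.pow_le_pow_left hB (g + 1))).trans (le_of_eq ?_)
      rw [← pow_mul, ← pow_add]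
    refine (Nat.pow_le_pow_left hC _).trans ?_
    rw [← pow_mul]
    apply key
    have h7 : (4 * g + 13 * L + 13 * L * (g + 1)) * g ≤ 30 * ((g + 1) * (g + 1) * L) := by
      have h8 : 4 * g ≤ 4 * (g + 1) * L := by nlinarith
      have h9 : 13 * L ≤ 13 * (g + 1) * L := by nlinarith
      calc (4 * g + 13 * L + 13 * L * (g + 1)) * g
          ≤ (4 * (g + 1) * L + 13 * (g + 1) * L + 13 * L * (g + 1)) * (g + 1) :=
            Nat.mul_le_mul (Nat.add_le_add_right (Nat.add_le_add h8 h9) _) (by omega)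
        _ = _ := by ring
    omega

end Pool.Agent.Helper81.Tok3H58
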